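import Pool.Agent.Lib.MP_4146e4_co.Full.Spec

/-!
# Module A1: the trivial bound
-/

namespace Pool.Agent.MP4146e4

open Finset

/-- Bernoulli process on `W`. -/
noncomputable def bern (W : Finset ℕ) (p : ℝ) (v : ℕ) (_ : Finset ℕ) : ℝ := if v ∈ W then p else 0

theorem ex_bern_ind {W : Finset ℕ} {p : ℝ} {v n : ℕ} (hv : v ∈ W) (hn : v < n) :
    ex (bern W p) n (ind v) = p := by
  rw [ex_ind hn]
  have : bern W p v = fun _ => p := by
    funext I
    simp [bern, hv]
  rw [this, ex_const]

theorem ex_bern_pair {W : Finset ℕ} {p : ℝ} {x v n : ℕ} (hx : x ∈ W) (hv : v ∈ W) (hxv : x < v)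
    (hn : v < n) : ex (bern W p) n (fun I => ind v I * ind x I) = p ^ 2 := by
  rw [ex_ind_mul hn ((ind_loc x).mono hxv)]
  have : (fun I => bern W p v I * ind x I) = fun I => p * ind x I := by
    funext I
    simp [bern, hv]
  rw [this, ex_smul, ex_bern_ind hx hxv]
  ring

/-- The weight of the isolated chosen vertices. -/
noncomputable def gain (N : ℕ → Finset ℕ) (f : ℕ → ℝ) (W : Finset ℕ) (I : Finset ℕ) : ℝ :=
  ∑ v ∈ W, f v * (ind v I - ∑ x ∈ N v ∩ W, ind v I * ind x I)

theorem gain_le {N : ℕ → Finset ℕ} {f : ℕ → ℝ} (hf : ∀ v, 0 ≤ f v) {W : Finset ℕ} {α : ℝ}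
    (hα : AlphaBd N f W α) (I : Finset ℕ) : gain N f W I ≤ α := by
  classical
  have h := hα (W.filter fun v => v ∈ I ∧ ∀ x ∈ N v ∩ W, x ∉ I) (filter_subset _ _) (by
      intro v hv x hx hxI
      simp only [mem_filter] at hv hxI
      exact hv.2.2 x (mem_inter.2 ⟨hx, hxI.1⟩) hxI.2.1)
  refine le_trans ?_ h
  unfold gain ff
  rw [Finset.sum_filter]
  apply Finset.sum_le_sum
  intro v _
  have hs : 0 ≤ ∑ x ∈ N v ∩ W, ind v I * ind x I :=
    Finset.sum_nonneg fun x _ => mul_nonneg (ind_nonneg v I) (ind_nonneg x I)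
  by_cases hv : v ∈ I
  · by_cases hx : ∀ x ∈ N v ∩ W, x ∉ I
    · rw [if_pos ⟨hv, hx⟩]
      have h1 : ind v I = 1 := by simp [ind, hv]
      rw [h1]
      rw [h1] at hs
      nlinarith [hf v]
    · rw [if_neg (fun hh => hx hh.2)]
      push Not at hx
      obtain ⟨x, hx, hxI⟩ := hx
      have h1 : ind v I * ind x I ≤ ∑ x ∈ N v ∩ W, ind v I * ind x I :=
        Finset.single_le_sum (f := fun x => ind v I * ind x I)
          (fun x _ => mul_nonneg (ind_nonneg v I) (ind_nonneg x I)) hx
      have h2 : ind v I = 1 := by simp [ind, hv]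
      have h3 : ind x I = 1 := by simp [ind, hxI]
      rw [h3, h2] at h1
      rw [h2]
      nlinarith [hf v]
  · rw [if_neg (fun hh => hv hh.1)]
    have h1 : ind v I = 0 := by simp [ind, hv]
    simp [h1]

theorem base_spec : BaseSpec := by
  intro r N hN W _ f hf α hα
  have hα0 := hα.nonneg
  have hF := ff_nonneg hf W
  have hP := Ph_nonneg (N := N) hf W
  obtain ⟨n, hn⟩ : ∃ n, W ⊆ range n := ⟨W.sup id + 1, fun x hx => by
    rw [mem_range]
    exact Nat.lt_succ_of_le (Finset.le_sup (f := id) hx)⟩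
  have key : ∀ p : ℝ, 0 ≤ p → p ≤ 1 → p * ff f W - p ^ 2 * Ph N f W ≤ α := by
    intro p hp0 hp1
    have hq0 : ∀ v I, 0 ≤ bern W p v I := by
      intro v I
      unfold bern
      split_ifs <;> simp [hp0]
    have hq1 : ∀ v I, bern W p v I ≤ 1 := by
      intro v I
      unfold bern
      split_ifs <;> simp [hp1]
    have h1 : ex (bern W p) n (gain N f W) ≤ α := by
      have := ex_mono_aux (q := bern W p) hq0 hq1 n (gain N f W) (fun _ => α)
        (fun I _ => gain_le hf hα I)
      rwa [ex_const] at this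
    refine le_trans (le_of_eq ?_) h1
    unfold gain
    rw [ex_sum]
    unfold ff Ph
    rw [Finset.mul_sum, Finset.mul_sum, ← Finset.sum_sub_distrib]
    apply Finset.sum_congr rfl
    intro v hv
    have hvn := mem_range.1 (hn hv)
    rw [ex_smul, ex_sub, ex_sum, ex_bern_ind hv hvn]
    rw [Finset.sum_congr rfl (g := fun _ => p ^ 2)]
    · rw [Finset.sum_const, nsmul_eq_mul]
      ring
    · intro x hx
      rw [mem_inter] at hx
      exact ex_bern_pair hx.2 hv (mem_range.1 (hN v hx.1)) hvn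
  rcases le_or_gt (2 * Ph N f W) (ff f W) with h | h
  · have h1 := key 1 zero_le_one le_rfl
    nlinarith
  · have hPpos : 0 < Ph N f W := by linarith
    have h1 := key (ff f W / (2 * Ph N f W)) (by positivity) (by
      rw [div_le_one (by positivity)]
      exact h.le)
    have h2 : ff f W / (2 * Ph N f W) * ff f W - (ff f W / (2 * Ph N f W)) ^ 2 * Ph N f W =
        ff f W ^ 2 / (4 * Ph N f W) := by
      field_simp
      ring
    rw [h2, div_le_iff₀ (by positivity)] at h1
    nlinarith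

end Pool.Agent.MP4146e4
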