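import Pool.Agent.Lib.MP_4146e4_co.Full.Spec

/-!
# Module C: the cluster lemma
-/

namespace Pool.Agent.MP4146e4.Cluster

open Finset

/-! ### Product expectation -/

section Product

variable {ι : Type*} [Fintype ι] [DecidableEq ι] {κ : Type*}

/-- Product expectation. -/
noncomputable def EX (t : ι → Finset κ) (p : ι → κ → ℝ) (F : (ι → κ) → ℝ) : ℝ :=
  ∑ ω ∈ Fintype.piFinset t, (∏ i, p i (ω i)) * F ω

theorem EX_prod (t : ι → Finset κ) (p h : ι → κ → ℝ) :
    EX t p (fun ω => ∏ i, h i (ω i)) = ∏ i, ∑ o ∈ t i, p i o * h i o := by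
  rw [Finset.prod_univ_sum]
  unfold EX
  apply Finset.sum_congr rfl
  intro ω _
  rw [Finset.prod_mul_distrib]

theorem EX_sum {J : Type*} (t : ι → Finset κ) (p : ι → κ → ℝ) (s : Finset J)
    (F : J → (ι → κ) → ℝ) : EX t p (fun ω => ∑ j ∈ s, F j ω) = ∑ j ∈ s, EX t p (F j) := by
  unfold EX
  rw [Finset.sum_comm]
  apply Finset.sum_congr rfl
  intro ω _
  rw [Finset.mul_sum]

theorem EX_smul (t : ι → Finset κ) (p : ι → κ → ℝ) (c : ℝ) (F : (ι → κ) → ℝ) :
    EX t p (fun ω => c * F ω) = c * EX t p F := by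
  unfold EX
  rw [Finset.mul_sum]
  apply Finset.sum_congr rfl
  intro ω _
  ring

theorem EX_add (t : ι → Finset κ) (p : ι → κ → ℝ) (F G : (ι → κ) → ℝ) :
    EX t p (fun ω => F ω + G ω) = EX t p F + EX t p G := by
  unfold EX
  rw [← Finset.sum_add_distrib]
  apply Finset.sum_congr rfl
  intro ω _
  ring

theorem EX_mono {t : ι → Finset κ} {p : ι → κ → ℝ} (hp : ∀ i o, 0 ≤ p i o)
    {F G : (ι → κ) → ℝ} (h : ∀ ω, F ω ≤ G ω) : EX t p F ≤ EX t p G := by
  unfold EX
  apply Finset.sum_le_sum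
  intro ω _
  exact mul_le_mul_of_nonneg_left (h ω) (Finset.prod_nonneg fun i _ => hp i _)

theorem EX_one {t : ι → Finset κ} {p : ι → κ → ℝ} (hp : ∀ i, ∑ o ∈ t i, p i o = 1) :
    EX t p (fun _ => 1) = 1 := by
  have h := EX_prod t p (fun _ _ => (1 : ℝ))
  simp only [Finset.prod_const_one, mul_one, hp] at h
  exact h

theorem prod_ite_two (s : ι) (S : Finset ι) (a b : ℝ) (hs : s ∈ S) :
    ∏ i, (if i = s then a else if i ∈ S then b else 1) = a * b ^ (S.card - 1) := by
  rw [← Finset.mul_prod_erase univ _ (mem_univ s), if_pos rfl]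
  congr 1
  have h1 : ∏ i ∈ univ.erase s, (if i = s then a else if i ∈ S then b else 1) =
      ∏ i ∈ univ.erase s, (if i ∈ S then b else 1) := by
    apply Finset.prod_congr rfl
    intro i hi
    rw [if_neg (Finset.ne_of_mem_erase hi)]
  rw [h1, Finset.prod_ite_mem, Finset.prod_const]
  congr 1
  have h2 : univ.erase s ∩ S = S.erase s := by
    ext i
    simp [Finset.mem_erase]
  rw [h2, Finset.card_erase_of_mem hs]

theorem prod_ite_three (s s' : ι) (S : Finset ι) (a b : ℝ) (hs : s ∈ S) (hs' : s' ∈ S)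
    (hne : s ≠ s') :
    ∏ i, (if i = s then a else if i = s' then a else if i ∈ S then b else 1) =
      a ^ 2 * b ^ (S.card - 2) := by
  rw [← Finset.mul_prod_erase univ _ (mem_univ s), if_pos rfl]
  have h1 : ∏ i ∈ univ.erase s, (if i = s then a else if i = s' then a else
      if i ∈ S then b else 1) =
      ∏ i ∈ univ.erase s, (if i = s' then a else if i ∈ S then b else 1) := by
    apply Finset.prod_congr rfl
    intro i hi
    rw [if_neg (Finset.ne_of_mem_erase hi)]
  have hs'e : s' ∈ univ.erase s := Finset.mem_erase.2 ⟨hne.symm, mem_univ _⟩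
  rw [h1, ← Finset.mul_prod_erase _ _ hs'e, if_pos rfl]
  have h2 : ∏ i ∈ (univ.erase s).erase s', (if i = s' then a else if i ∈ S then b else 1) =
      ∏ i ∈ (univ.erase s).erase s', (if i ∈ S then b else 1) := by
    apply Finset.prod_congr rfl
    intro i hi
    rw [if_neg (Finset.ne_of_mem_erase hi)]
  rw [h2, Finset.prod_ite_mem, Finset.prod_const]
  have h3 : (univ.erase s).erase s' ∩ S = (S.erase s).erase s' := by
    ext i
    simp only [mem_inter, mem_erase, mem_univ, and_true]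
    tauto
  rw [h3, Finset.card_erase_of_mem (Finset.mem_erase.2 ⟨hne.symm, hs'⟩),
    Finset.card_erase_of_mem hs, Nat.sub_sub]
  ring

end Product

/-! ### The slots -/

/-- Indicator of an inactive slot. -/
noncomputable def nn (o : Option (Finset ℕ)) : ℝ := match o with
  | none => 1
  | some _ => 0

/-- Indicator of an active slot choosing `y`. -/
noncomputable def aa (y : ℕ) (o : Option (Finset ℕ)) : ℝ := match o with
  | none => 0
  | some A => ind y A

section Slots

variable {ι : Type*}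

/-- Local outcome weights. -/
noncomputable def pp (w : ι → Finset ℕ → ℝ) (q : ℝ) (i : ι) (o : Option (Finset ℕ)) : ℝ :=
  match o with
  | none => 1 - q
  | some A => q * w i A

/-- Local outcomes. -/
def tt (U : ι → Finset ℕ) (i : ι) : Finset (Option (Finset ℕ)) :=
  Finset.insertNone (U i).powerset

variable [Fintype ι] [DecidableEq ι]

/-- Slots of a vertex. -/
def SL (U : ι → Finset ℕ) (y : ℕ) : Finset ι := univ.filter fun i => y ∈ U i

/-- Local factor. -/
noncomputable def hh (U : ι → Finset ℕ) (y : ℕ) (s i : ι) (o : Option (Finset ℕ)) : ℝ :=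
  if i = s then aa y o else if i ∈ SL U y then nn o else 1

omit [Fintype ι] [DecidableEq ι] in
theorem sum_tt (U : ι → Finset ℕ) (w : ι → Finset ℕ → ℝ) (q : ℝ) (i : ι)
    (h : Option (Finset ℕ) → ℝ) :
    ∑ o ∈ tt U i, pp w q i o * h o =
      (1 - q) * h none + q * ∑ A ∈ (U i).powerset, w i A * h (some A) := by
  unfold tt
  rw [Finset.sum_insertNone, Finset.mul_sum]
  congr 1
  apply Finset.sum_congr rfl
  intro A _
  simp only [pp]
  ring

variable {N : ℕ → Finset ℕ} {U : ι → Finset ℕ} {w : ι → Finset ℕ → ℝ} {q σ : ℝ}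

omit [Fintype ι] [DecidableEq ι] in
theorem sum_tt_one (hw1 : ∀ i, ∑ A ∈ (U i).powerset, w i A = 1) (i : ι) :
    ∑ o ∈ tt U i, pp w q i o * 1 = 1 := by
  rw [sum_tt U w q i (fun _ => 1)]
  simp only [mul_one]
  rw [hw1]
  ring

omit [Fintype ι] [DecidableEq ι] in
theorem sum_tt_nn (i : ι) : ∑ o ∈ tt U i, pp w q i o * nn o = 1 - q := by
  rw [sum_tt U w q i nn]
  simp [nn]

omit [Fintype ι] [DecidableEq ι] in
theorem sum_tt_aa (hwm : ∀ i, ∀ v ∈ U i, ∑ A ∈ (U i).powerset, w i A * ind v A = σ) {i : ι}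
    {y : ℕ} (hy : y ∈ U i) : ∑ o ∈ tt U i, pp w q i o * aa y o = q * σ := by
  rw [sum_tt U w q i (aa y)]
  simp only [aa, mul_zero, zero_add]
  rw [hwm i y hy]

/-- First moment. -/
theorem EX_hh (hw1 : ∀ i, ∑ A ∈ (U i).powerset, w i A = 1)
    (hwm : ∀ i, ∀ v ∈ U i, ∑ A ∈ (U i).powerset, w i A * ind v A = σ) {y : ℕ} {s : ι}
    (hs : s ∈ SL U y) :
    EX (tt U) (pp w q) (fun ω => ∏ i, hh U y s i (ω i)) =
      (q * σ) * (1 - q) ^ ((SL U y).card - 1) := by
  rw [EX_prod, ← prod_ite_two s (SL U y) (q * σ) (1 - q) hs]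
  apply Finset.prod_congr rfl
  intro i _
  unfold hh
  have hys : y ∈ U s := (mem_filter.1 hs).2
  by_cases h1 : i = s
  · subst h1
    simp only [if_true]
    exact sum_tt_aa hwm hys
  · simp only [h1, if_false]
    by_cases h2 : i ∈ SL U y
    · simp only [h2, if_true]
      exact sum_tt_nn i
    · simp only [h2, if_false]
      exact sum_tt_one hw1 i

/-- Two different vertices of which `z` is a back-neighbour of `y`: pairs of slots of which one is
common contribute zero. -/
theorem EX_hh_hh_zero (hwind : ∀ i A, w i A ≠ 0 → Indep N A) {y z : ℕ} (hz : z ∈ N y) {s s' : ι}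
    (hcom : s ∈ SL U z ∨ s' ∈ SL U y) :
    EX (tt U) (pp w q) (fun ω => ∏ i, hh U y s i (ω i) * hh U z s' i (ω i)) = 0 := by
  rw [EX_prod (tt U) (pp w q) (fun i o => hh U y s i o * hh U z s' i o)]
  by_cases hss : s = s'
  · subst hss
    apply Finset.prod_eq_zero (mem_univ s)
    unfold hh
    simp only [if_true]
    rw [sum_tt U w q s (fun o => aa y o * aa z o)]
    simp only [aa, mul_zero, zero_add]
    rw [Finset.sum_eq_zero, mul_zero]
    intro A _
    by_cases hA : w s A = 0
    · rw [hA, zero_mul]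
    · have h1 := hwind s A hA
      unfold ind
      by_cases hy : y ∈ A
      · rw [if_neg (h1 y hy z hz), mul_zero, mul_zero]
      · rw [if_neg hy, zero_mul, mul_zero]
  · rcases hcom with h | h
    · apply Finset.prod_eq_zero (mem_univ s)
      unfold hh
      simp only [if_true, hss, if_false, h]
      rw [sum_tt U w q s (fun o => aa y o * nn o)]
      simp [aa, nn]
    · apply Finset.prod_eq_zero (mem_univ s')
      unfold hh
      simp only [if_true, Ne.symm hss, if_false, h]
      rw [sum_tt U w q s' (fun o => nn o * aa z o)]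
      simp [aa, nn]

theorem EX_hh_hh (hw1 : ∀ i, ∑ A ∈ (U i).powerset, w i A = 1)
    (hwm : ∀ i, ∀ v ∈ U i, ∑ A ∈ (U i).powerset, w i A * ind v A = σ) {y z : ℕ} {s s' : ι}
    (hs : s ∈ SL U y) (hs' : s' ∈ SL U z) (h1 : s ∉ SL U z) (h2 : s' ∉ SL U y) :
    EX (tt U) (pp w q) (fun ω => ∏ i, hh U y s i (ω i) * hh U z s' i (ω i)) =
      (q * σ) ^ 2 * (1 - q) ^ ((SL U y ∪ SL U z).card - 2) := by
  have hne : s ≠ s' := fun h => h1 (h ▸ hs')
  rw [EX_prod (tt U) (pp w q) (fun i o => hh U y s i o * hh U z s' i o),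
    ← prod_ite_three s s' (SL U y ∪ SL U z) (q * σ) (1 - q) (mem_union_left _ hs)
      (mem_union_right _ hs') hne]
  have hys : y ∈ U s := (mem_filter.1 hs).2
  have hzs : z ∈ U s' := (mem_filter.1 hs').2
  apply Finset.prod_congr rfl
  intro i _
  unfold hh
  by_cases e1 : i = s
  · subst e1
    simp only [if_true, hne, if_false, h1, mul_one]
    exact sum_tt_aa hwm hys
  · by_cases e2 : i = s'
    · subst e2
      simp only [if_true, e1, if_false, h2, one_mul]
      exact sum_tt_aa hwm hzs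
    · simp only [e1, e2, if_false, mem_union]
      by_cases e3 : i ∈ SL U y <;> by_cases e4 : i ∈ SL U z <;> simp only [e3, e4, if_true,
        if_false, or_true, true_or, or_self, mul_one, one_mul]
      · rw [← sum_tt_nn (U := U) (w := w) (q := q) i]
        apply Finset.sum_congr rfl
        intro o _
        congr 1
        cases o <;> simp [nn]
      · exact sum_tt_nn i
      · exact sum_tt_nn i
      · have := sum_tt_one (q := q) hw1 i
        simpa using this

/-- The real inequality behind the second moment. -/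
theorem real_ineq {m k : ℕ} (hk : k ≤ m) (hm : 1 ≤ m) {σ q : ℝ} (hq : q = 1 / (2 * m)) :
    ((m - k : ℕ) : ℝ) ^ 2 * ((q * σ) ^ 2 * (1 - q) ^ (2 * m - k - 2)) ≤
      (m * ((q * σ) * (1 - q) ^ (m - 1))) ^ 2 * (1 - k / m) := by
  have hm0 : (1 : ℝ) ≤ m := by exact_mod_cast hm
  rcases Nat.lt_or_ge k m with hlt | hge
  · have hq0 : 0 < q := by rw [hq]; positivity
    have hq1 : q ≤ 1 / 2 := by
      rw [hq]
      apply div_le_div_of_nonneg_left <;> linarith
    have hqm : m * q = 1 / 2 := by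
      rw [hq]
      field_simp
    have hkm : (k : ℝ) < m := by exact_mod_cast hlt
    have hcast : ((m - k : ℕ) : ℝ) = m - k := by rw [Nat.cast_sub hk]
    have hbern : 1 - k * q ≤ (1 - q) ^ k := by
      have := one_add_mul_le_pow (a := -q) (by linarith) k
      calc 1 - k * q = 1 + k * (-q) := by ring
        _ ≤ (1 + -q) ^ k := this
        _ = (1 - q) ^ k := by ring
    have hkey : (m : ℝ) - k ≤ m * (1 - q) ^ k := by
      calc (m : ℝ) - k ≤ m * (1 - k * q) := by
            have : (m : ℝ) * (1 - k * q) = m - k * (m * q) := by ring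
            rw [this, hqm]
            have : (0 : ℝ) ≤ k := Nat.cast_nonneg k
            linarith
        _ ≤ _ := mul_le_mul_of_nonneg_left hbern (by linarith)
    have hpow : (1 - q) ^ (m - 1) * (1 - q) ^ (m - 1) = (1 - q) ^ (2 * m - k - 2) * (1 - q) ^ k := by
      rw [← pow_add, ← pow_add]
      congr 1
      omega
    have hP : 0 ≤ (1 - q) ^ (2 * m - k - 2) := pow_nonneg (by linarith) _
    rw [hcast]
    have e1 : ((m : ℝ) * ((q * σ) * (1 - q) ^ (m - 1))) ^ 2 * (1 - k / m) =
        (q * σ) ^ 2 * (1 - q) ^ (2 * m - k - 2) * ((m - k) * (m * (1 - q) ^ k)) := by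
      calc ((m : ℝ) * ((q * σ) * (1 - q) ^ (m - 1))) ^ 2 * (1 - k / m) =
          (q * σ) ^ 2 * ((1 - q) ^ (m - 1) * (1 - q) ^ (m - 1)) * (m * (m * (1 - k / m))) := by
            ring
        _ = (q * σ) ^ 2 * ((1 - q) ^ (2 * m - k - 2) * (1 - q) ^ k) * (m * (m - k)) := by
            rw [hpow]
            congr 2
            field_simp
        _ = _ := by ring
    rw [e1]
    calc ((m : ℝ) - k) ^ 2 * ((q * σ) ^ 2 * (1 - q) ^ (2 * m - k - 2)) =
        (q * σ) ^ 2 * (1 - q) ^ (2 * m - k - 2) * ((m - k) * (m - k)) := by ring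
      _ ≤ _ := by
        apply mul_le_mul_of_nonneg_left _ (mul_nonneg (sq_nonneg _) hP)
        exact mul_le_mul_of_nonneg_left hkey (by linarith)
  · have : m = k := le_antisymm hge hk
    subst this
    have : (m : ℝ) / m = 1 := div_self (by linarith)
    rw [this]
    simp

/-! ### The random set -/

/-- Product of the local factors. -/
noncomputable def YY (U : ι → Finset ℕ) (y : ℕ) (s : ι) (ω : ι → Option (Finset ℕ)) : ℝ :=
  ∏ i, hh U y s i (ω i)

/-- `s` is the only active slot of `y` and it chooses `y`. -/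
def Pc (U : ι → Finset ℕ) (y : ℕ) (ω : ι → Option (Finset ℕ)) (s : ι) : Prop :=
  (∃ A, ω s = some A ∧ y ∈ A) ∧ ∀ i, i ∈ SL U y → i ≠ s → ω i = none

open Classical in
theorem YY_eq (U : ι → Finset ℕ) (y : ℕ) (s : ι) (ω : ι → Option (Finset ℕ)) :
    YY U y s ω = if Pc U y ω s then 1 else 0 := by
  unfold YY
  split_ifs with h
  · obtain ⟨⟨A, hA, hyA⟩, h2⟩ := h
    apply Finset.prod_eq_one
    intro i _
    unfold hh
    by_cases h3 : i = s
    · subst h3
      rw [if_pos rfl, hA]
      simp [aa, ind, hyA]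
    · rw [if_neg h3]
      by_cases h4 : i ∈ SL U y
      · rw [if_pos h4, h2 i h4 h3]
        rfl
      · rw [if_neg h4]
  · by_contra hne
    apply h
    have hall : ∀ i, hh U y s i (ω i) ≠ 0 := fun i hi =>
      hne (Finset.prod_eq_zero (mem_univ i) hi)
    refine ⟨?_, ?_⟩
    · have := hall s
      unfold hh at this
      rw [if_pos rfl] at this
      cases hω : ω s with
      | none => rw [hω] at this; exact absurd rfl this
      | some A =>
        refine ⟨A, rfl, ?_⟩
        rw [hω] at this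
        by_contra hyA
        apply this
        simp [aa, ind, hyA]
    · intro i hi his
      have := hall i
      unfold hh at this
      rw [if_neg his, if_pos hi] at this
      cases hω : ω i with
      | none => rfl
      | some A => rw [hω] at this; exact absurd rfl this

/-- Indicator of `y ∈ B`. -/
noncomputable def bI (U : ι → Finset ℕ) (y : ℕ) (ω : ι → Option (Finset ℕ)) : ℝ :=
  ∑ s ∈ SL U y, YY U y s ω

open Classical in
theorem bI_eq (U : ι → Finset ℕ) (y : ℕ) (ω : ι → Option (Finset ℕ)) :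
    bI U y ω = if ∃ s ∈ SL U y, Pc U y ω s then 1 else 0 := by
  unfold bI
  split_ifs with h
  · obtain ⟨s, hs, hP⟩ := h
    rw [Finset.sum_eq_single s]
    · rw [YY_eq, if_pos hP]
    · intro s' hs' hne
      rw [YY_eq, if_neg]
      rintro ⟨⟨A, hA, _⟩, _⟩
      have := hP.2 s' hs' hne
      rw [this] at hA
      exact absurd hA (by simp)
    · intro h
      exact absurd hs h
  · apply Finset.sum_eq_zero
    intro s hs
    rw [YY_eq, if_neg]
    intro hP
    exact h ⟨s, hs, hP⟩

open Classical in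
/-- The random set. -/
noncomputable def BB (U : ι → Finset ℕ) (W : Finset ℕ) (ω : ι → Option (Finset ℕ)) : Finset ℕ :=
  W.filter fun y => ∃ s ∈ SL U y, Pc U y ω s

theorem ff_BB (f : ℕ → ℝ) (U : ι → Finset ℕ) (W : Finset ℕ) (ω : ι → Option (Finset ℕ)) :
    ff f (BB U W ω) = ∑ y ∈ W, f y * bI U y ω := by
  classical
  unfold ff BB
  rw [Finset.sum_filter]
  apply Finset.sum_congr rfl
  intro y _
  rw [bI_eq]
  split_ifs <;> simp

theorem card_BB (N : ℕ → Finset ℕ) (U : ι → Finset ℕ) (W : Finset ℕ) (y : ℕ)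
    (ω : ι → Option (Finset ℕ)) :
    ((N y ∩ BB U W ω).card : ℝ) = ∑ z ∈ N y ∩ W, bI U z ω := by
  classical
  have h1 : N y ∩ BB U W ω = (N y ∩ W).filter fun z => ∃ s ∈ SL U z, Pc U z ω s := by
    ext z
    simp only [BB, mem_inter, mem_filter]
    tauto
  rw [h1, Finset.card_filter]
  push_cast
  apply Finset.sum_congr rfl
  intro z _
  rw [bI_eq]

theorem Ph_BB (N : ℕ → Finset ℕ) (f : ℕ → ℝ) (U : ι → Finset ℕ) (W : Finset ℕ)
    (ω : ι → Option (Finset ℕ)) :
    Ph N f (BB U W ω) = ∑ y ∈ W, f y * ∑ z ∈ N y ∩ W, bI U y ω * bI U z ω := by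
  classical
  have h1 : Ph N f (BB U W ω) = ∑ y ∈ BB U W ω, f y * ∑ z ∈ N y ∩ W, bI U z ω := by
    unfold Ph
    apply Finset.sum_congr rfl
    intro y _
    rw [card_BB]
  rw [h1]
  unfold BB
  rw [Finset.sum_filter]
  apply Finset.sum_congr rfl
  intro y _
  rw [← Finset.mul_sum, bI_eq U y ω]
  split_ifs <;> simp

/-- First moment of `bI`. -/
theorem EX_bI (hw1 : ∀ i, ∑ A ∈ (U i).powerset, w i A = 1)
    (hwm : ∀ i, ∀ v ∈ U i, ∑ A ∈ (U i).powerset, w i A * ind v A = σ) {y : ℕ} {m : ℕ}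
    (hy : (SL U y).card = m) :
    EX (tt U) (pp w q) (bI U y) = m * ((q * σ) * (1 - q) ^ (m - 1)) := by
  unfold bI YY
  rw [EX_sum (tt U) (pp w q) (SL U y) (fun s ω => ∏ i, hh U y s i (ω i))]
  rw [Finset.sum_congr rfl (fun s hs => EX_hh hw1 hwm hs), Finset.sum_const, hy, nsmul_eq_mul]

/-- Second moment of `bI`. -/
theorem EX_bI_bI (hwind : ∀ i A, w i A ≠ 0 → Indep N A)
    (hw1 : ∀ i, ∑ A ∈ (U i).powerset, w i A = 1)
    (hwm : ∀ i, ∀ v ∈ U i, ∑ A ∈ (U i).powerset, w i A * ind v A = σ) {y z : ℕ} (hz : z ∈ N y)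
    {m : ℕ} (hm : 1 ≤ m) (hy : (SL U y).card = m) (hz' : (SL U z).card = m)
    (hq : q = 1 / (2 * m)) :
    EX (tt U) (pp w q) (fun ω => bI U y ω * bI U z ω) ≤
      (m * ((q * σ) * (1 - q) ^ (m - 1))) ^ 2 * (1 - ((SL U y ∩ SL U z).card : ℝ) / m) := by
  have hk : (SL U y ∩ SL U z).card ≤ m := by
    rw [← hy]
    exact Finset.card_le_card Finset.inter_subset_left
  refine le_trans (le_of_eq ?_) (real_ineq (σ := σ) hk hm hq)
  have h1 : EX (tt U) (pp w q) (fun ω => bI U y ω * bI U z ω) =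
      ∑ s ∈ SL U y, ∑ s' ∈ SL U z,
        EX (tt U) (pp w q) (fun ω => ∏ i, hh U y s i (ω i) * hh U z s' i (ω i)) := by
    have e1 : (fun ω => bI U y ω * bI U z ω) = fun ω => ∑ s ∈ SL U y, ∑ s' ∈ SL U z,
        ∏ i, hh U y s i (ω i) * hh U z s' i (ω i) := by
      funext ω
      unfold bI YY
      rw [Finset.sum_mul_sum]
      apply Finset.sum_congr rfl
      intro s _
      apply Finset.sum_congr rfl
      intro s' _
      rw [Finset.prod_mul_distrib]
    rw [e1, EX_sum (tt U) (pp w q) (SL U y)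
      (fun s ω => ∑ s' ∈ SL U z, ∏ i, hh U y s i (ω i) * hh U z s' i (ω i))]
    apply Finset.sum_congr rfl
    intro s _
    rw [EX_sum (tt U) (pp w q) (SL U z)
      (fun s' ω => ∏ i, hh U y s i (ω i) * hh U z s' i (ω i))]
  have hunion : (SL U y ∪ SL U z).card = 2 * m - (SL U y ∩ SL U z).card := by
    have := Finset.card_union_add_card_inter (SL U y) (SL U z)
    omega
  have hA : (SL U y \ SL U z).card = m - (SL U y ∩ SL U z).card := by
    have := Finset.card_sdiff_add_card_inter (SL U y) (SL U z)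
    omega
  have hB : (SL U z \ SL U y).card = m - (SL U y ∩ SL U z).card := by
    have := Finset.card_sdiff_add_card_inter (SL U z) (SL U y)
    rw [Finset.inter_comm (SL U z)] at this
    omega
  rw [h1]
  calc ∑ s ∈ SL U y, ∑ s' ∈ SL U z,
        EX (tt U) (pp w q) (fun ω => ∏ i, hh U y s i (ω i) * hh U z s' i (ω i)) =
      ∑ s ∈ SL U y \ SL U z, ∑ s' ∈ SL U z \ SL U y,
        EX (tt U) (pp w q) (fun ω => ∏ i, hh U y s i (ω i) * hh U z s' i (ω i)) := by
        rw [← Finset.sum_subset Finset.sdiff_subset]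
        · apply Finset.sum_congr rfl
          intro s hs
          rw [mem_sdiff] at hs
          rw [← Finset.sum_subset Finset.sdiff_subset]
          intro s' hs' hns'
          rw [mem_sdiff, not_and, not_not] at hns'
          exact EX_hh_hh_zero hwind hz (Or.inr (hns' hs'))
        · intro s hs hns
          rw [mem_sdiff, not_and, not_not] at hns
          apply Finset.sum_eq_zero
          intro s' _
          exact EX_hh_hh_zero hwind hz (Or.inl (hns hs))
    _ = ∑ s ∈ SL U y \ SL U z, ∑ s' ∈ SL U z \ SL U y,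
        (q * σ) ^ 2 * (1 - q) ^ ((SL U y ∪ SL U z).card - 2) := by
        apply Finset.sum_congr rfl
        intro s hs
        apply Finset.sum_congr rfl
        intro s' hs'
        rw [mem_sdiff] at hs hs'
        exact EX_hh_hh hw1 hwm hs.1 hs'.1 hs.2 hs'.2
    _ = _ := by
        rw [Finset.sum_const, Finset.sum_const, hA, hB, nsmul_eq_mul, nsmul_eq_mul, hunion]
        ring

theorem b_ge {m : ℕ} (hm : 1 ≤ m) {σ q : ℝ} (hσ : 0 < σ) (hq : q = 1 / (2 * m)) :
    σ / 4 ≤ m * ((q * σ) * (1 - q) ^ (m - 1)) := by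
  have hm0 : (1 : ℝ) ≤ m := by exact_mod_cast hm
  have hq0 : 0 < q := by rw [hq]; positivity
  have hq1 : q ≤ 1 / 2 := by
    rw [hq]
    apply div_le_div_of_nonneg_left <;> linarith
  have hqm : m * q = 1 / 2 := by
    rw [hq]
    field_simp
  have hbern : 1 - ((m - 1 : ℕ) : ℝ) * q ≤ (1 - q) ^ (m - 1) := by
    have := one_add_mul_le_pow (a := -q) (by linarith) (m - 1)
    calc 1 - ((m - 1 : ℕ) : ℝ) * q = 1 + ((m - 1 : ℕ) : ℝ) * (-q) := by ring
      _ ≤ (1 + -q) ^ (m - 1) := this
      _ = (1 - q) ^ (m - 1) := by ring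
  have h1 : ((m - 1 : ℕ) : ℝ) * q ≤ 1 / 2 := by
    rw [← hqm]
    apply mul_le_mul_of_nonneg_right _ hq0.le
    exact_mod_cast Nat.sub_le m 1
  have e : (m : ℝ) * ((q * σ) * (1 - q) ^ (m - 1)) = σ / 2 * (1 - q) ^ (m - 1) := by
    calc (m : ℝ) * ((q * σ) * (1 - q) ^ (m - 1)) = (m * q) * σ * (1 - q) ^ (m - 1) := by ring
      _ = _ := by rw [hqm]; ring
  rw [e]
  nlinarith

/-- Abstract cluster lemma. -/
theorem cluster_abs (W : Finset ℕ) {m : ℕ} (hm : 1 ≤ m) (hσ : 0 < σ)
    (hw0 : ∀ i A, 0 ≤ w i A) (hwind : ∀ i A, w i A ≠ 0 → Indep N A)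
    (hw1 : ∀ i, ∑ A ∈ (U i).powerset, w i A = 1)
    (hwm : ∀ i, ∀ v ∈ U i, ∑ A ∈ (U i).powerset, w i A * ind v A = σ)
    (hcount : ∀ y ∈ W, (SL U y).card = m)
    (hpair : ∀ y ∈ W, ∀ z ∈ N y ∩ W, (N z ∩ (N y ∩ W)).card ≤ (SL U y ∩ SL U z).card)
    {f : ℕ → ℝ} (hf : ∀ v, 0 ≤ f v) {α K D0 : ℝ} (hα : 0 ≤ α) (hK : 0 ≤ K) (hD0 : 0 ≤ D0)
    (hB : ∀ B ⊆ W, K * ff f B ^ 2 ≤ α * (Ph N f B + D0 * ff f B)) :
    K * ff f W ^ 2 ≤ α * (Ph N f W - Tr N f W / m + 4 * D0 / σ * ff f W) := by
  have hm0 : (1 : ℝ) ≤ m := by exact_mod_cast hm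
  obtain ⟨q, hq⟩ : ∃ q : ℝ, q = 1 / (2 * m) := ⟨_, rfl⟩
  have hq0 : 0 < q := by rw [hq]; positivity
  have hq1 : q ≤ 1 / 2 := by
    rw [hq]
    apply div_le_div_of_nonneg_left <;> linarith
  obtain ⟨b, hb⟩ : ∃ b : ℝ, b = m * ((q * σ) * (1 - q) ^ (m - 1)) := ⟨_, rfl⟩
  have hbge : σ / 4 ≤ b := by rw [hb]; exact b_ge hm hσ hq
  have hbpos : 0 < b := by linarith
  have hp : ∀ i o, 0 ≤ pp w q i o := by
    intro i o
    cases o with
    | none => simp only [pp]; linarith
    | some A => simp only [pp]; exact mul_nonneg hq0.le (hw0 i A)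
  have hp1 : ∀ i, ∑ o ∈ tt U i, pp w q i o = 1 := by
    intro i
    have := sum_tt_one (q := q) hw1 i
    simpa using this
  -- expectation of `f(B)`
  have hEf : EX (tt U) (pp w q) (fun ω => ff f (BB U W ω)) = b * ff f W := by
    have e1 : (fun ω => ff f (BB U W ω)) = fun ω => ∑ y ∈ W, f y * bI U y ω :=
      funext fun ω => ff_BB f U W ω
    rw [e1, EX_sum (tt U) (pp w q) W (fun y ω => f y * bI U y ω)]
    unfold ff
    rw [Finset.mul_sum]
    apply Finset.sum_congr rfl
    intro y hy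
    rw [EX_smul, EX_bI hw1 hwm (hcount y hy), ← hb]
    ring
  -- expectation of `Φ(B)`
  have hEP : EX (tt U) (pp w q) (fun ω => Ph N f (BB U W ω)) ≤
      b ^ 2 * (Ph N f W - Tr N f W / m) := by
    have e1 : (fun ω => Ph N f (BB U W ω)) =
        fun ω => ∑ y ∈ W, f y * ∑ z ∈ N y ∩ W, bI U y ω * bI U z ω :=
      funext fun ω => Ph_BB N f U W ω
    rw [e1, EX_sum (tt U) (pp w q) W (fun y ω => f y * ∑ z ∈ N y ∩ W, bI U y ω * bI U z ω)]
    have e2 : b ^ 2 * (Ph N f W - Tr N f W / m) = ∑ y ∈ W, f y * ∑ z ∈ N y ∩ W,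
        b ^ 2 * (1 - ((N z ∩ (N y ∩ W)).card : ℝ) / m) := by
      unfold Ph Tr
      rw [Finset.sum_div, ← Finset.sum_sub_distrib, Finset.mul_sum]
      apply Finset.sum_congr rfl
      intro y _
      rw [← Finset.mul_sum, Finset.sum_sub_distrib, ← Finset.sum_div, Finset.sum_const,
        nsmul_eq_mul]
      ring
    rw [e2]
    apply Finset.sum_le_sum
    intro y hy
    rw [EX_smul, EX_sum (tt U) (pp w q) (N y ∩ W) (fun z ω => bI U y ω * bI U z ω)]
    apply mul_le_mul_of_nonneg_left _ (hf y)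
    apply Finset.sum_le_sum
    intro z hz
    have hz1 := (mem_inter.1 hz).1
    have hz2 := (mem_inter.1 hz).2
    refine (EX_bI_bI hwind hw1 hwm hz1 hm (hcount y hy) (hcount z hz2) hq).trans ?_
    rw [← hb]
    apply mul_le_mul_of_nonneg_left _ (sq_nonneg b)
    apply sub_le_sub_left
    apply div_le_div_of_nonneg_right _ (by linarith)
    exact_mod_cast hpair y hy z hz
  -- Jensen
  have hJ : K * (b * ff f W) ^ 2 ≤ EX (tt U) (pp w q) (fun ω => K * ff f (BB U W ω) ^ 2) := by
    have e1 : EX (tt U) (pp w q) (fun ω => K * (2 * (b * ff f W) * ff f (BB U W ω) +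
        (-(b * ff f W) ^ 2) * 1)) ≤ EX (tt U) (pp w q) (fun ω => K * ff f (BB U W ω) ^ 2) := by
      apply EX_mono hp
      intro ω
      apply mul_le_mul_of_nonneg_left _ hK
      nlinarith [sq_nonneg (ff f (BB U W ω) - b * ff f W)]
    rw [EX_smul, EX_add, EX_smul (tt U) (pp w q) (2 * (b * ff f W)), hEf,
      EX_smul (tt U) (pp w q) (-(b * ff f W) ^ 2), EX_one hp1] at e1
    refine le_trans (le_of_eq ?_) e1
    ring
  have hS : EX (tt U) (pp w q) (fun ω => K * ff f (BB U W ω) ^ 2) ≤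
      EX (tt U) (pp w q) (fun ω => α * (Ph N f (BB U W ω) + D0 * ff f (BB U W ω))) := by
    apply EX_mono hp
    intro ω
    apply hB
    classical
    exact Finset.filter_subset _ _
  have hR : EX (tt U) (pp w q) (fun ω => α * (Ph N f (BB U W ω) + D0 * ff f (BB U W ω))) =
      α * (EX (tt U) (pp w q) (fun ω => Ph N f (BB U W ω)) + D0 * (b * ff f W)) := by
    rw [EX_smul, EX_add, EX_smul, hEf]
  rw [hR] at hS
  have hfin : K * (b * ff f W) ^ 2 ≤
      α * (b ^ 2 * (Ph N f W - Tr N f W / m) + D0 * (b * ff f W)) := by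
    refine (hJ.trans hS).trans ?_
    apply mul_le_mul_of_nonneg_left _ hα
    linarith
  have hF := ff_nonneg hf W
  have h4 : D0 * (b * ff f W) ≤ b ^ 2 * (4 * D0 / σ * ff f W) := by
    have : b ≤ b ^ 2 * (4 / σ) := by
      have : 1 ≤ b * (4 / σ) := by
        rw [mul_div_assoc', le_div_iff₀ hσ]
        linarith
      nlinarith
    calc D0 * (b * ff f W) = b * (D0 * ff f W) := by ring
      _ ≤ b ^ 2 * (4 / σ) * (D0 * ff f W) := mul_le_mul_of_nonneg_right this (mul_nonneg hD0 hF)
      _ = _ := by ring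
  have h5 : b ^ 2 * (K * ff f W ^ 2) ≤
      b ^ 2 * (α * (Ph N f W - Tr N f W / m + 4 * D0 / σ * ff f W)) := by
    calc b ^ 2 * (K * ff f W ^ 2) = K * (b * ff f W) ^ 2 := by ring
      _ ≤ α * (b ^ 2 * (Ph N f W - Tr N f W / m) + D0 * (b * ff f W)) := hfin
      _ ≤ α * (b ^ 2 * (Ph N f W - Tr N f W / m) + b ^ 2 * (4 * D0 / σ * ff f W)) := by
          apply mul_le_mul_of_nonneg_left _ hα
          linarith
      _ = _ := by ring
  exact le_of_mul_le_mul_left h5 (by positivity)

end Slots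

/-! ### The concrete slots -/

/-- The vertex sets of the slots: forward neighbourhoods and private slots. -/
def UU (N : ℕ → Finset ℕ) (W : Finset ℕ) (n m : ℕ) : Fin n ⊕ (Fin n × Fin m) → Finset ℕ
  | Sum.inl x => W.filter fun y => (x : ℕ) ∈ N y ∩ W
  | Sum.inr p => if (p.2 : ℕ) < m - (N p.1 ∩ W).card ∧ (p.1 : ℕ) ∈ W then {(p.1 : ℕ)} else ∅

theorem UU_subset (N : ℕ → Finset ℕ) (W : Finset ℕ) (n m : ℕ) (i : Fin n ⊕ (Fin n × Fin m)) :
    UU N W n m i ⊆ W := by
  cases i with
  | inl x => exact Finset.filter_subset _ _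
  | inr p =>
    simp only [UU]
    split_ifs with h
    · exact Finset.singleton_subset_iff.2 h.2
    · exact Finset.empty_subset _

theorem UU_CF {N : ℕ → Finset ℕ} (hN : ∀ v, N v ⊆ range v) {W : Finset ℕ} {r : ℕ} (hr : 3 ≤ r)
    (hCF : CF N W r) (n m : ℕ) (i : Fin n ⊕ (Fin n × Fin m)) : CF N (UU N W n m i) (r - 1) := by
  intro S hS hcard
  cases i with
  | inl x =>
    have hS' : ∀ y ∈ S, y ∈ W ∧ (x : ℕ) ∈ N y ∧ (x : ℕ) ∈ W := by
      intro y hy
      have := hS hy
      simp only [UU, mem_filter, mem_inter] at this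
      exact ⟨this.1, this.2.1, this.2.2⟩
    have hxS : (x : ℕ) ∉ S := by
      intro h
      have := hN _ (hS' _ h).2.1
      simp at this
    have hne : S.Nonempty := by
      rw [← Finset.card_pos]
      omega
    obtain ⟨y0, hy0⟩ := hne
    obtain ⟨u, hu, v, hv, huv, hnot⟩ := hCF (insert (x : ℕ) S) (by
      intro y hy
      rw [mem_insert] at hy
      rcases hy with rfl | hy
      · exact (hS' y0 hy0).2.2
      · exact (hS' y hy).1) (by
      rw [Finset.card_insert_of_notMem hxS, hcard]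
      omega)
    rw [mem_insert] at hu hv
    rcases hv with rfl | hv
    · rcases hu with rfl | hu
      · exact absurd huv (lt_irrefl _)
      · have h1 := mem_range.1 (hN _ (hS' u hu).2.1)
        omega
    · rcases hu with rfl | hu
      · exact absurd (hS' v hv).2.1 hnot
      · exact ⟨u, hu, v, hv, huv, hnot⟩
  | inr p =>
    exfalso
    have h1 : S.card ≤ 1 := by
      refine (Finset.card_le_card hS).trans ?_
      simp only [UU]
      split_ifs
      · simp
      · simp
    omega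

theorem SL_card {N : ℕ → Finset ℕ} {W : Finset ℕ} {n m : ℕ} (hW : W ⊆ range n) {y : ℕ}
    (hy : y ∈ W) (hd : (N y ∩ W).card ≤ m) : (SL (UU N W n m) y).card = m := by
  unfold SL
  rw [Finset.card_filter, Fintype.sum_sum_type]
  have h1 : ∑ x : Fin n, (if y ∈ UU N W n m (Sum.inl x) then 1 else 0) = (N y ∩ W).card := by
    have e1 : ∀ x : Fin n, (if y ∈ UU N W n m (Sum.inl x) then 1 else 0) =
        (fun x : ℕ => if x ∈ N y ∩ W then 1 else 0) (x : ℕ) := by
      intro x
      simp only [UU, mem_filter, hy, true_and]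
    rw [Finset.sum_congr rfl fun x _ => e1 x,
      Fin.sum_univ_eq_sum_range (fun x : ℕ => if x ∈ N y ∩ W then 1 else 0) n,
      ← Finset.card_filter]
    congr 1
    ext x
    simp only [mem_filter, mem_range, mem_inter]
    constructor
    · exact fun h => h.2
    · exact fun h => ⟨mem_range.1 (hW h.2), h⟩
  have h2 : ∑ p : Fin n × Fin m, (if y ∈ UU N W n m (Sum.inr p) then 1 else 0) =
      m - (N y ∩ W).card := by
    rw [Fintype.sum_prod_type]
    have e1 : ∀ a : Fin n, ∑ b : Fin m, (if y ∈ UU N W n m (Sum.inr (a, b)) then 1 else 0) =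
        if (a : ℕ) = y then m - (N y ∩ W).card else 0 := by
      intro a
      by_cases ha : (a : ℕ) = y
      · rw [if_pos ha]
        have e2 : ∀ b : Fin m, (if y ∈ UU N W n m (Sum.inr (a, b)) then 1 else 0) =
            (fun b : ℕ => if b < m - (N y ∩ W).card then 1 else 0) (b : ℕ) := by
          intro b
          simp only [UU, ha, hy, and_true]
          by_cases hb : (b : ℕ) < m - (N y ∩ W).card
          · simp [hb]
          · simp [hb]
        rw [Finset.sum_congr rfl fun b _ => e2 b,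
          Fin.sum_univ_eq_sum_range (fun b : ℕ => if b < m - (N y ∩ W).card then 1 else 0) m,
          ← Finset.card_filter]
        have : (range m).filter (fun b => b < m - (N y ∩ W).card) =
            range (m - (N y ∩ W).card) := by
          ext b
          simp only [mem_filter, mem_range]
          omega
        rw [this, card_range]
      · rw [if_neg ha]
        apply Finset.sum_eq_zero
        intro b _
        rw [if_neg]
        simp only [UU]
        split_ifs
        · rw [mem_singleton]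
          exact fun h => ha h.symm
        · simp
    rw [Finset.sum_congr rfl fun a _ => e1 a]
    have hyn : y < n := mem_range.1 (hW hy)
    rw [Finset.sum_eq_single (⟨y, hyn⟩ : Fin n)]
    · simp
    · intro b _ hb
      rw [if_neg]
      intro h
      apply hb
      ext
      exact h
    · intro h
      exact absurd (mem_univ _) h
  rw [h1, h2]
  omega

theorem SL_pair {N : ℕ → Finset ℕ} {W : Finset ℕ} {n m : ℕ} (hW : W ⊆ range n) {y z : ℕ}
    (hy : y ∈ W) (hz : z ∈ N y ∩ W) :
    (N z ∩ (N y ∩ W)).card ≤ (SL (UU N W n m) y ∩ SL (UU N W n m) z).card := by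
  have hsub : ∀ x ∈ N z ∩ (N y ∩ W), x < n := fun x hx =>
    mem_range.1 (hW (mem_inter.1 (mem_inter.1 hx).2).2)
  have hzW := (mem_inter.1 hz).2
  apply Finset.card_le_card_of_injOn
    (fun x => if h : x < n then (Sum.inl ⟨x, h⟩ : Fin n ⊕ (Fin n × Fin m)) else
      (Sum.inl ⟨y, mem_range.1 (hW hy)⟩))
  · intro x hx
    have hx' : x ∈ N z ∩ (N y ∩ W) := hx
    have hxn := hsub x hx'
    rw [mem_inter, mem_inter] at hx'
    simp only [hxn, dif_pos, SL, Finset.coe_inter, Finset.coe_filter, Set.mem_inter_iff,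
      Set.mem_ofPred_eq, mem_univ, true_and, UU, mem_filter, mem_inter]
    exact ⟨⟨hy, hx'.2⟩, ⟨hzW, hx'.1, hx'.2.2⟩⟩
  · intro x hx x' hx' h
    have hxn := hsub x hx
    have hxn' := hsub x' hx'
    simp only [hxn, hxn', dif_pos, Sum.inl.injEq, Fin.mk.injEq] at h
    exact h

end Pool.Agent.MP4146e4.Cluster

namespace Pool.Agent.MP4146e4

open Finset Cluster

theorem specCluster : ClusterSpec := by
  intro r hr s m0 hs hm0 hdual N hN W hCF m hm hd f hf α K D0 hα hK hD0 hB
  have hm1 : 1 ≤ m := by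
    have : (1 : ℝ) ≤ m := hm0.trans hm
    exact_mod_cast this
  have hmr : (0 : ℝ) < m := by exact_mod_cast hm1
  obtain ⟨n, hW⟩ : ∃ n, W ⊆ range n := by
    refine ⟨W.sup id + 1, fun x hx => ?_⟩
    rw [mem_range]
    have : x ≤ W.sup id := Finset.le_sup (f := id) hx
    omega
  have hw : ∀ i : Fin n ⊕ (Fin n × Fin m), ∃ w : Finset ℕ → ℝ, (∀ A, 0 ≤ w A) ∧
      (∀ A, w A ≠ 0 → A ⊆ UU N W n m i ∧ Indep N A) ∧
      ∑ A ∈ (UU N W n m i).powerset, w A = 1 ∧
      ∀ v ∈ UU N W n m i, ∑ A ∈ (UU N W n m i).powerset, w A * ind v A = s / m := by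
    intro i
    apply hdual N hN _ (UU_CF hN hr hCF n m i) m hm
    intro v hv
    have hvW := UU_subset N W n m i hv
    have h1 : (N v ∩ UU N W n m i).card ≤ m :=
      (Finset.card_le_card (Finset.inter_subset_inter_left (UU_subset N W n m i))).trans
        (hd v hvW)
    exact_mod_cast h1
  choose w hw0 hwind hw1 hwm using hw
  have h := cluster_abs (N := N) (U := UU N W n m) (w := w) (σ := s / m) W hm1 (by positivity)
    hw0 (fun i A hA => (hwind i A hA).2) hw1 hwm (fun y hy => SL_card hW hy (hd y hy))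
    (fun y hy z hz => SL_pair hW hy hz) hf hα hK hD0 hB
  have e : 4 * D0 / (s / m) = 4 * D0 * m / s := by
    field_simp
  rwa [e] at h

end Pool.Agent.MP4146e4
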