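import Pool.Agent.Lib.MP_4146e4_co.Full.Spec

/-!
# Module F: iterating the rounds and greedy completion of the colouring
-/

namespace Pool.Agent.MP4146e4

open Finset

namespace Colour

variable {N : ℕ → Finset ℕ} {n : ℕ} {EE : (Finset ℕ → ℝ) → ℝ}

theorem sum_op (h : GoodOp N n EE) {ι : Type*} (s : Finset ι) (F : ι → Finset ℕ → ℝ) :
    EE (fun I => ∑ i ∈ s, F i I) = ∑ i ∈ s, EE (F i) := by
  classical
  induction s using Finset.induction_on with
  | empty => simpa using h.const 0
  | insert a s ha ih =>
    rw [Finset.sum_insert ha, ← ih, ← h.add]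
    congr 1
    funext I
    rw [Finset.sum_insert ha]

theorem exists_indep_le (h : GoodOp N n EE) (F : Finset ℕ → ℝ) :
    ∃ I, I ⊆ range n ∧ Indep N I ∧ F I ≤ EE F := by
  classical
  by_contra hcon
  push Not at hcon
  obtain ⟨I₀, hI₀, hmin⟩ := Finset.exists_min_image
    ((range n).powerset.filter fun I => Indep N I) F
    ⟨∅, by rw [mem_filter]; exact ⟨by simp, fun v hv => by simp at hv⟩⟩
  rw [mem_filter, mem_powerset] at hI₀
  have h1 := hcon I₀ hI₀.1 hI₀.2
  have h2 : F I₀ ≤ EE F := by
    have h3 := h.mono (fun _ => F I₀) F (fun I hI hI' =>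
      hmin I (by rw [mem_filter, mem_powerset]; exact ⟨hI, hI'⟩))
    rwa [h.const] at h3
  linarith

/-- Expectation of `F (T ∪ I_1 ∪ … ∪ I_k)` for independent copies `I_1, …, I_k`. -/
noncomputable def itE (EE : (Finset ℕ → ℝ) → ℝ) (F : Finset ℕ → ℝ) : ℕ → Finset ℕ → ℝ
  | 0, T => F T
  | k + 1, T => EE fun I => itE EE F k (T ∪ I)

theorem itE_sum (h : GoodOp N n EE) {ι : Type*} (s : Finset ι) (F : ι → Finset ℕ → ℝ) (k : ℕ) :
    ∀ T, itE EE (fun T => ∑ i ∈ s, F i T) k T = ∑ i ∈ s, itE EE (F i) k T := by
  induction k with
  | zero => intro T; rfl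
  | succ k ih =>
    intro T
    simp only [itE]
    rw [← sum_op h]
    congr 1
    funext I
    exact ih _

theorem exists_itE_le (h : GoodOp N n EE) (F : Finset ℕ → ℝ) (k : ℕ) :
    ∀ T, ∃ J : ℕ → Finset ℕ, (∀ j, j < k → Indep N (J j)) ∧
      F (T ∪ (range k).biUnion J) ≤ itE EE F k T := by
  induction k with
  | zero =>
    intro T
    refine ⟨fun _ => ∅, fun j hj => absurd hj (Nat.not_lt_zero j), ?_⟩
    simp [itE]
  | succ k ih =>
    intro T
    obtain ⟨I, _, hI, hle⟩ := exists_indep_le h (fun I => itE EE F k (T ∪ I))
    obtain ⟨J, hJ, hJle⟩ := ih (T ∪ I)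
    refine ⟨fun j => if j = k then I else J j, ?_, ?_⟩
    · intro j hj
      by_cases h : j = k
      · simp only [h, if_true]
        exact hI
      · simp only [h, if_false]
        exact hJ j (by omega)
    · have h1 : T ∪ (range (k + 1)).biUnion (fun j => if j = k then I else J j) =
          T ∪ I ∪ (range k).biUnion J := by
        rw [Finset.range_add_one, Finset.biUnion_insert, if_pos rfl, Finset.union_assoc]
        congr 2
        apply Finset.biUnion_congr rfl
        intro j hj
        rw [if_neg (ne_of_lt (mem_range.1 hj))]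
      rw [h1]
      exact hJle.trans hle

theorem itE_cost_eq_zero (h : GoodOp N n EE) (a v : ℕ) (k : ℕ) :
    ∀ T, (N v \ T).card < a → itE EE (cost N a v) k T = 0 := by
  induction k with
  | zero =>
    intro T hT
    simp only [itE, cost]
    rw [if_neg (by omega)]
  | succ k ih =>
    intro T hT
    simp only [itE]
    have : ∀ I, itE EE (cost N a v) k (T ∪ I) = 0 := by
      intro I
      apply ih
      refine lt_of_le_of_lt (Finset.card_le_card ?_) hT
      exact Finset.sdiff_subset_sdiff (Finset.Subset.refl _) Finset.subset_union_left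
    simp only [this]
    exact h.const 0

theorem itE_cost_le (h : GoodOp N n EE)
    {d m v : ℕ} {lam c : ℝ} (hlam : 0 ≤ lam) (hm : m ≤ d) (hd : (N v).card ≤ d)
    (hS : ∀ S ⊆ N v, d - m ≤ S.card →
      EE (fun I => Real.exp (-(lam * (I ∩ S).card))) ≤ Real.exp (-c)) (k : ℕ) :
    ∀ T, itE EE (cost N (d - m) v) k T ≤
      Real.exp (-(c * k)) * Real.exp (lam * (m - (T ∩ N v).card)) := by
  induction k with
  | zero =>
    intro T
    simp only [itE, cost]
    split_ifs with h
    · rw [Nat.cast_zero, mul_zero, neg_zero, Real.exp_zero, one_mul]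
      apply Real.one_le_exp
      apply mul_nonneg hlam
      have h1 : (T ∩ N v).card + (N v \ T).card = (N v).card := by
        rw [Finset.inter_comm]
        exact Finset.card_inter_add_card_sdiff _ _
      have h2 : (T ∩ N v).card ≤ m := by omega
      have h3 : ((T ∩ N v).card : ℝ) ≤ m := by exact_mod_cast h2
      linarith
    · positivity
  | succ k ih =>
    intro T
    by_cases h' : (N v \ T).card < d - m
    · rw [itE_cost_eq_zero h (d - m) v (k + 1) T h']
      positivity
    · push Not at h'
      simp only [itE]
      have h1 : EE (fun I => itE EE (cost N (d - m) v) k (T ∪ I)) ≤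
          EE (fun I => Real.exp (-(c * k)) * Real.exp (lam * (m - (T ∩ N v).card)) *
            Real.exp (-(lam * (I ∩ (N v \ T)).card))) := by
        apply h.mono
        intro I _ _
        refine (ih (T ∪ I)).trans (le_of_eq ?_)
        have e1 : ((T ∪ I) ∩ N v).card = (T ∩ N v).card + (I ∩ (N v \ T)).card := by
          rw [← Finset.card_union_of_disjoint]
          · congr 1
            ext x
            simp only [mem_inter, mem_union, mem_sdiff]
            tauto
          · rw [Finset.disjoint_left]
            intro x hx hx'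
            simp only [mem_inter, mem_sdiff] at hx hx'
            exact hx'.2.2 hx.1
        rw [e1, mul_assoc, ← Real.exp_add (lam * (m - (T ∩ N v).card))]
        congr 2
        push_cast
        ring
      refine h1.trans ?_
      rw [h.smul]
      have h2 := hS (N v \ T) Finset.sdiff_subset h'
      calc Real.exp (-(c * k)) * Real.exp (lam * (m - (T ∩ N v).card)) *
            EE (fun I => Real.exp (-(lam * (I ∩ (N v \ T)).card))) ≤
          Real.exp (-(c * k)) * Real.exp (lam * (m - (T ∩ N v).card)) * Real.exp (-c) :=
            mul_le_mul_of_nonneg_left h2 (by positivity)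
        _ = _ := by
            rw [mul_comm (Real.exp (-(c * k))), mul_assoc, ← Real.exp_add, mul_comm]
            congr 2
            push_cast
            ring

end Colour

open Colour in
theorem specColour : ColourSpec := by
  intro θ hθ d hd N hN n hcard EE hE hS hn
  set t := d / 5 with ht
  have ht5 : 5 * t ≤ d := Nat.mul_div_le d 5
  have ht10 : d ≤ 10 * t := by omega
  have htd : t ≤ d := by omega
  obtain ⟨J, hJ, hJle⟩ := exists_itE_le hE (fun T => ∑ v ∈ range n, cost N (d - t) v T) t ∅
  rw [itE_sum hE] at hJle
  have hbound : ∀ v ∈ range n, itE EE (cost N (d - t) v) t ∅ ≤ Real.exp (-(θ / 2 * t)) := by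
    intro v hv
    rw [mem_range] at hv
    have h1 := itE_cost_le hE (d := d) (m := t) (v := v)
      (lam := θ) (c := 3 / 2 * θ) hθ.le htd (hcard v hv) ?_ t ∅
    · refine h1.trans (le_of_eq ?_)
      rw [Finset.empty_inter, Finset.card_empty, Nat.cast_zero, sub_zero, ← Real.exp_add]
      congr 1
      ring
    · intro S hSN hS'
      apply hS v hv S hSN
      have h2 : (5 * t : ℝ) ≤ d := by exact_mod_cast ht5
      have h3 : d ≤ S.card + t := by omega
      have h4 : (d : ℝ) ≤ S.card + t := by exact_mod_cast h3
      linarith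
  have htot : ∑ v ∈ range n, itE EE (cost N (d - t) v) t ∅ < 1 := by
    refine lt_of_le_of_lt (Finset.sum_le_sum hbound) ?_
    rw [Finset.sum_const, card_range, nsmul_eq_mul]
    have h1 : (n : ℝ) < Real.exp (θ / 2 * t) := by
      refine hn.trans_le (Real.exp_le_exp.2 ?_)
      have h2 : (d : ℝ) ≤ 10 * t := by exact_mod_cast ht10
      nlinarith
    rw [Real.exp_neg, ← div_eq_mul_inv, div_lt_one (Real.exp_pos _)]
    exact h1
  rw [Finset.empty_union] at hJle
  have hlt := lt_of_le_of_lt hJle htot
  have hgood : ∀ v, v < n → (N v \ (range t).biUnion J).card < d - t := by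
    intro v hv
    by_contra hcon
    push Not at hcon
    have h1 : cost N (d - t) v ((range t).biUnion J) = 1 := by
      unfold cost
      rw [if_pos hcon]
    have h2 : cost N (d - t) v ((range t).biUnion J) ≤
        ∑ v ∈ range n, cost N (d - t) v ((range t).biUnion J) := by
      apply Finset.single_le_sum (f := fun v => cost N (d - t) v ((range t).biUnion J))
      · intro w _
        unfold cost
        split_ifs <;> norm_num
      · exact mem_range.2 hv
    linarith
  have hfin := exists_colouring hN J hJ hgood
  have e : t + (d - t) = d := by omega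
  rwa [e] at hfin

end Pool.Agent.MP4146e4
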