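import Pool.Agent.Lib.MP_4146e4_co.Full.Spec

/-!
# Module B (DUAL, helper42): random independent sets with prescribed marginals by duality
-/

set_option autoImplicit false

namespace Pool.Agent.MP4146e4

open Finset

/-- A point of a finite dimensional space that satisfies all linear inequalities satisfied by
finitely many vectors is a convex combination of them. -/
theorem duality {ι κ : Type} [Fintype ι] [Fintype κ] (φ : ι → κ → ℝ) (p : κ → ℝ)
    (h : ∀ g : κ → ℝ, ∃ i, ∑ v, g v * p v ≤ ∑ v, g v * φ i v) :
    ∃ w : ι → ℝ, (∀ i, 0 ≤ w i) ∧ ∑ i, w i = 1 ∧ ∀ v, ∑ i, w i * φ i v = p v := by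
  classical
  let L : (ι → ℝ) →ₗ[ℝ] (κ → ℝ) :=
    { toFun := fun w v => ∑ i, w i * φ i v
      map_add' := by
        intro w w'
        funext v
        simp only [Pi.add_apply, add_mul, Finset.sum_add_distrib]
      map_smul' := by
        intro c w
        funext v
        simp only [Pi.smul_apply, smul_eq_mul, RingHom.id_apply, Finset.mul_sum, mul_assoc] }
  have hLc : Continuous L := LinearMap.continuous_of_finiteDimensional L
  have hconv : Convex ℝ (L '' stdSimplex ℝ ι) := (convex_stdSimplex ℝ ι).linear_image L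
  have hcl : IsClosed (L '' stdSimplex ℝ ι) := ((isCompact_stdSimplex ℝ ι).image hLc).isClosed
  have hp : p ∈ L '' stdSimplex ℝ ι := by
    by_contra hp
    obtain ⟨f, u, hf1, hf2⟩ := geometric_hahn_banach_closed_point hconv hcl hp
    have hfsum : ∀ x : κ → ℝ, f x = ∑ v, f (Pi.single v 1) * x v := by
      intro x
      have hx : x = ∑ v, x v • (Pi.single v (1 : ℝ) : κ → ℝ) := by
        funext v
        simp [Finset.sum_apply, Pi.single_apply]
      conv_lhs => rw [hx]
      rw [map_sum]
      apply Finset.sum_congr rfl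
      intro v _
      rw [map_smul, smul_eq_mul, mul_comm]
    obtain ⟨i, hi⟩ := h (fun v => f (Pi.single v 1))
    have h1 : L (Pi.single i 1) ∈ L '' stdSimplex ℝ ι :=
      ⟨_, single_mem_stdSimplex ℝ i, rfl⟩
    have h2 : L (Pi.single i 1) = φ i := by
      funext v
      simp [L, Pi.single_apply]
    rw [h2] at h1
    have h3 := hf1 _ h1
    rw [← hfsum, ← hfsum] at hi
    linarith
  obtain ⟨w, hw, hwp⟩ := hp
  refine ⟨w, hw.1, hw.2, ?_⟩
  intro v
  exact congrFun hwp v

theorem specDual : DualSpec := by
  classical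
  intro r hPP s hs
  obtain ⟨D0, hD0, hSS⟩ := hPP (2 * s)
  refine ⟨max 1 D0, le_max_left _ _, ?_⟩
  intro N hN U hCF m hm hdeg
  have hm1 : 1 ≤ m := (le_max_left _ _).trans hm
  have hmD : D0 ≤ m := (le_max_right _ _).trans hm
  have hm0 : 0 < m := by linarith
  -- the key inequality for nonnegative weights
  have hpos : ∀ g : ℕ → ℝ, (∀ v, 0 ≤ g v) → ∃ A, A ⊆ U ∧ Indep N A ∧ s / m * ff g U ≤ ff g A := by
    intro g hg
    let T : Finset (Finset ℕ) := U.powerset.filter (fun A => Indep N A)
    have hT : T.Nonempty := ⟨∅, by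
      simp only [T, Finset.mem_filter, Finset.mem_powerset]
      exact ⟨Finset.empty_subset _, fun v hv => by simp at hv⟩⟩
    obtain ⟨A, hA, hmax⟩ := T.exists_max_image (ff g) hT
    simp only [T, Finset.mem_filter, Finset.mem_powerset] at hA
    refine ⟨A, hA.1, hA.2, ?_⟩
    have hα : AlphaBd N g U (ff g A) := by
      intro I hI hI'
      exact hmax I (by simp only [T, Finset.mem_filter, Finset.mem_powerset]; exact ⟨hI, hI'⟩)
    have h1 := hSS N hN U hCF g hg (ff g A) hα
    have h2 : Ph N g U ≤ m * ff g U := by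
      unfold Ph ff
      rw [Finset.mul_sum]
      apply Finset.sum_le_sum
      intro v hv
      rw [mul_comm m]
      exact mul_le_mul_of_nonneg_left (hdeg v hv) (hg v)
    have hα0 := hα.nonneg
    have hU0 := ff_nonneg hg U
    have h3 : ff g A * (Ph N g U + D0 * ff g U) ≤ ff g A * (2 * m * ff g U) := by
      apply mul_le_mul_of_nonneg_left _ hα0
      have : D0 * ff g U ≤ m * ff g U := mul_le_mul_of_nonneg_right hmD hU0
      linarith
    rcases hU0.eq_or_lt with h0 | h0
    · rw [← h0, mul_zero]; exact hα0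
    · rw [div_mul_eq_mul_div, div_le_iff₀ hm0]
      have h4 : (s * ff g U) * ff g U ≤ (ff g A * m) * ff g U := by nlinarith
      exact le_of_mul_le_mul_right h4 h0
  -- arbitrary weights
  have hall : ∀ g : ℕ → ℝ, ∃ A, A ⊆ U ∧ Indep N A ∧ s / m * ff g U ≤ ff g A := by
    intro g
    obtain ⟨A, hA, hI, hle⟩ := hpos (fun v => max (g v) 0) (fun v => le_max_right _ _)
    refine ⟨A.filter (fun v => 0 ≤ g v), (Finset.filter_subset _ _).trans hA, ?_, ?_⟩
    · intro v hv x hx hxA
      exact hI v (Finset.mem_filter.1 hv).1 x hx (Finset.mem_filter.1 hxA).1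
    · have h1 : ff g U ≤ ff (fun v => max (g v) 0) U :=
        Finset.sum_le_sum fun v _ => le_max_left _ _
      have h2 : ff (fun v => max (g v) 0) A = ff g (A.filter (fun v => 0 ≤ g v)) := by
        unfold ff
        rw [Finset.sum_filter]
        apply Finset.sum_congr rfl
        intro v _
        split_ifs with h
        · exact max_eq_left h
        · exact max_eq_right (not_le.1 h).le
      rw [← h2]
      exact (mul_le_mul_of_nonneg_left h1 (by positivity)).trans hle
  let T : Finset (Finset ℕ) := U.powerset.filter (fun A => Indep N A)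
  have hTmem : ∀ A, A ∈ T ↔ A ⊆ U ∧ Indep N A := by
    intro A
    simp only [T, Finset.mem_filter, Finset.mem_powerset]
  obtain ⟨w, hw0, hw1, hw2⟩ := duality (ι := {A // A ∈ T}) (κ := {v // v ∈ U})
    (fun A v => ind (v : ℕ) (A : Finset ℕ)) (fun _ => s / m) (by
      intro g
      obtain ⟨A, hA, hI, hle⟩ := hall (fun v => if h : v ∈ U then g ⟨v, h⟩ else 0)
      refine ⟨⟨A, (hTmem A).2 ⟨hA, hI⟩⟩, ?_⟩
      have e1 : ff (fun v => if h : v ∈ U then g ⟨v, h⟩ else 0) U = ∑ v : {v // v ∈ U}, g v := by
        unfold ff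
        rw [← Finset.sum_coe_sort U]
        apply Finset.sum_congr rfl
        intro v _
        rw [dif_pos v.2]
      have e2 : ff (fun v => if h : v ∈ U then g ⟨v, h⟩ else 0) A =
          ∑ v : {v // v ∈ U}, g v * ind (v : ℕ) A := by
        unfold ff
        have e3 : ∑ v ∈ A, (if h : v ∈ U then g ⟨v, h⟩ else 0) =
            ∑ v ∈ U, (if h : v ∈ U then g ⟨v, h⟩ else 0) * ind v A := by
          rw [← Finset.sum_subset hA]
          · apply Finset.sum_congr rfl
            intro v hv
            unfold ind
            rw [if_pos hv, mul_one]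
          · intro v _ hv
            unfold ind
            rw [if_neg hv, mul_zero]
        rw [e3, ← Finset.sum_coe_sort U]
        apply Finset.sum_congr rfl
        intro v _
        rw [dif_pos v.2]
      rw [e1, e2] at hle
      rw [← Finset.sum_mul, mul_comm]
      exact hle)
  let w' : Finset ℕ → ℝ := fun A => if h : A ∈ T then w ⟨A, h⟩ else 0
  have hsum : ∀ F : Finset ℕ → ℝ, ∑ A ∈ U.powerset, w' A * F A =
      ∑ A : {A // A ∈ T}, w A * F A := by
    intro F
    rw [← Finset.sum_subset (Finset.filter_subset (fun A => Indep N A) U.powerset)]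
    · show ∑ A ∈ T, w' A * F A = _
      rw [← Finset.sum_coe_sort T]
      apply Finset.sum_congr rfl
      intro A _
      simp only [w']
      rw [dif_pos A.2]
    · intro A _ hA
      simp only [w']
      rw [dif_neg hA, zero_mul]
  refine ⟨w', ?_, ?_, ?_, ?_⟩
  · intro A
    simp only [w']
    split_ifs
    · exact hw0 _
    · exact le_rfl
  · intro A hA
    apply (hTmem A).1
    by_contra hAT
    apply hA
    simp only [w']
    rw [dif_neg hAT]
  · have := hsum (fun _ => 1)
    simp only [mul_one] at this
    rw [this, hw1]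
  · intro v hv
    rw [hsum]
    exact hw2 ⟨v, hv⟩

end Pool.Agent.MP4146e4
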