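import Pool.Agent.Lib.MP_4146e4_co.Full.Spec

/-!
# From ordered graphs to degenerate graphs
-/

namespace Pool.Agent.MP4146e4

open Finset

namespace Final

/-- The colouring theorem for graphs, from the one for ordered graphs. -/
theorem colorable_of_ordered {V : Type*} [Fintype V] (G : SimpleGraph V) {r d : ℕ} (hr : 2 ≤ r)
    (hcl : G.CliqueFree r)
    (hdeg : ∀ s : Set V, s.Nonempty → ∃ v ∈ s, (G.neighborSet v ∩ s).ncard ≤ d)
    (hord : ∀ N : ℕ → Finset ℕ, (∀ v, N v ⊆ range v) → CF N (range (Fintype.card V)) r →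
      (∀ v, v < Fintype.card V → (N v).card ≤ d) →
      ∃ c : ℕ → ℕ, (∀ v, v < Fintype.card V → c v < d) ∧
        ∀ v, v < Fintype.card V → ∀ x ∈ N v, c x ≠ c v) :
    G.Colorable d := by
  classical
  obtain ⟨f, hf1, hf2, hf3⟩ := exists_order G hdeg (Fintype.card V) Set.univ
    (by rw [Set.ncard_univ, Nat.card_eq_fintype_card])
  have hinj : Function.Injective f := fun x y h => hf1 (Set.mem_univ x) (Set.mem_univ y) h
  have hlt : ∀ v, f v < Fintype.card V := fun v => hf2 v (Set.mem_univ v)
  set N : ℕ → Finset ℕ := fun i =>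
    (range i).filter (fun j => ∃ u v, f u = j ∧ f v = i ∧ G.Adj v u) with hNdef
  have hN : ∀ v, N v ⊆ range v := fun v => Finset.filter_subset _ _
  have hmem : ∀ u v, f u ∈ N (f v) ↔ f u < f v ∧ G.Adj v u := by
    intro u v
    simp only [hNdef, mem_filter, mem_range]
    constructor
    · rintro ⟨h1, u', v', hu, hv, h2⟩
      rw [hinj hu, hinj hv] at h2
      exact ⟨h1, h2⟩
    · rintro ⟨h1, h2⟩
      exact ⟨h1, u, v, rfl, rfl, h2⟩
  have hNimage : ∀ v, (N (f v) : Set ℕ) = f '' {u | G.Adj v u ∧ f u < f v} := by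
    intro v
    ext j
    simp only [Finset.mem_coe, Set.mem_image, Set.mem_ofPred_eq]
    constructor
    · intro hj
      have hj' := hj
      simp only [hNdef, mem_filter, mem_range] at hj'
      obtain ⟨_, u, v', hu, _, _⟩ := hj'
      subst hu
      exact ⟨u, ⟨((hmem u v).1 hj).2, ((hmem u v).1 hj).1⟩, rfl⟩
    · rintro ⟨u, ⟨h1, h2⟩, rfl⟩
      exact (hmem u v).2 ⟨h2, h1⟩
  have hSd : ∀ v, ({u | G.Adj v u ∧ f u < f v} : Set V).ncard ≤ d := by
    intro v
    refine le_trans (le_of_eq ?_) (hf3 v (Set.mem_univ v))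
    congr 1
    ext u
    simp [SimpleGraph.mem_neighborSet]
  have hNempty : ∀ i, (¬ ∃ v, f v = i) → N i = ∅ := by
    intro i hi
    simp only [hNdef]
    apply Finset.filter_eq_empty_iff.2
    rintro j _ ⟨u, v, _, hv, _⟩
    exact hi ⟨v, hv⟩
  have hcard : ∀ i, (N i).card ≤ d := by
    intro i
    by_cases hi : ∃ v, f v = i
    · obtain ⟨v, rfl⟩ := hi
      rw [← Set.ncard_coe_finset, hNimage, Set.ncard_image_of_injective _ hinj]
      exact hSd v
    · rw [hNempty i hi]
      simp
  have hCF : CF N (range (Fintype.card V)) r := by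
    intro S hS hSr
    by_contra hcon
    push Not at hcon
    -- every element of `S` is the index of a vertex
    have himg : ∀ i ∈ S, ∃ v, f v = i := by
      intro i hi
      obtain ⟨j, hj, hij⟩ : ∃ j ∈ S, j ≠ i := by
        by_contra hno
        push Not at hno
        have : S ⊆ {i} := fun j hj => by
          rw [mem_singleton]
          exact hno j hj
        have := Finset.card_le_card this
        rw [card_singleton] at this
        omega
      rcases lt_or_gt_of_ne hij with h | h
      · have h1 := hcon j hj i hi h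
        simp only [hNdef, mem_filter] at h1
        obtain ⟨_, u, v, _, hv, _⟩ := h1
        exact ⟨v, hv⟩
      · have h1 := hcon i hi j hj h
        simp only [hNdef, mem_filter] at h1
        obtain ⟨_, u, v, hu, _, _⟩ := h1
        exact ⟨u, hu⟩
    apply hcl (univ.filter fun v => f v ∈ S)
    rw [SimpleGraph.isNClique_iff]
    constructor
    · intro u hu v hv huv
      simp only [Finset.coe_filter, mem_univ, true_and, Set.mem_ofPred_eq] at hu hv
      rcases lt_or_gt_of_ne (fun h => huv (hinj h)) with h | h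
      · exact ((hmem u v).1 (hcon _ hu _ hv h)).2.symm
      · exact ((hmem v u).1 (hcon _ hv _ hu h)).2
    · rw [← hSr, ← Finset.card_image_of_injective _ hinj]
      congr 1
      ext i
      simp only [mem_image, mem_filter, mem_univ, true_and]
      constructor
      · rintro ⟨v, hv, rfl⟩
        exact hv
      · intro hi
        obtain ⟨v, rfl⟩ := himg i hi
        exact ⟨v, hi, rfl⟩
  obtain ⟨c, hc1, hc2⟩ := hord N hN hCF (fun i _ => hcard i)
  refine ⟨SimpleGraph.Coloring.mk (fun v => (⟨c (f v), hc1 _ (hlt v)⟩ : Fin d)) ?_⟩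
  intro v w hvw he
  rw [Fin.mk.injEq] at he
  rcases lt_trichotomy (f v) (f w) with h | h | h
  · exact hc2 (f w) (hlt w) (f v) ((hmem v w).2 ⟨h, hvw.symm⟩) he
  · exact hvw.ne (hinj h)
  · exact hc2 (f v) (hlt v) (f w) ((hmem w v).2 ⟨h, hvw⟩) he.symm

end Final

/-- The full statement (this is the frozen statement `S08351`) from the modules. -/
theorem specFinal (hPP : PPSpec) (hRound : RoundSpec) (hCol : ColourSpec) :
    ∀ r : ℕ, 3 ≤ r → ∃ c : ℝ, 0 < c ∧ ∃ d₀ : ℕ, ∀ d : ℕ, d₀ ≤ d →
      ∀ (V : Type) [Fintype V] (G : SimpleGraph V),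
        G.CliqueFree r →
        (∀ s : Set V, s.Nonempty → ∃ v ∈ s, (G.neighborSet v ∩ s).ncard ≤ d) →
        G.chromaticNumber = ((d + 1 : ℕ) : ℕ∞) →
        Real.exp (c * (d : ℝ)) ≤ (Fintype.card V : ℝ) := by
  intro r hr
  obtain ⟨θ, hθ, d0, hround⟩ := hRound r (hPP r (by omega))
  refine ⟨θ / 20, by positivity, max d0 10, fun d hd V _ G hcl hdeg hchi => ?_⟩
  by_contra hlt
  push Not at hlt
  have hcol : G.Colorable d := by
    refine Final.colorable_of_ordered G (by omega) hcl hdeg fun N hN hCF hcard => ?_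
    obtain ⟨EE, hE, hlap⟩ := hround d (le_trans (le_max_left _ _) hd) N hN _ hCF hcard
    exact hCol θ hθ d (le_trans (le_max_right _ _) hd) N hN _ hcard EE hE hlap hlt
  have h1 := hcol.chromaticNumber_le
  rw [hchi] at h1
  have h2 : d + 1 ≤ d := by exact_mod_cast h1
  omega

end Pool.Agent.MP4146e4
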