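import Pool.Agent.Lib.MP_4146e4_co.Full.Spec

/-!
# Module D: the weighted bound holds for all `r ≥ 2`
-/

namespace Pool.Agent.MP4146e4

open Finset

namespace PPMod

theorem ff_sub {f : ℕ → ℝ} {W W' : Finset ℕ} (h : W' ⊆ W) :
    ff f W = ff f W' + ff f (W \ W') := by
  unfold ff
  rw [add_comm, Finset.sum_sdiff h]

/-- `SS` is monotone in `K`. -/
theorem SS.mono_K {r : ℕ} {K K' D0 : ℝ} (h : SS r K D0) (hK : K' ≤ K) : SS r K' D0 := by
  intro N hN W hW f hf α hα
  refine le_trans ?_ (h N hN W hW f hf α hα)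
  exact mul_le_mul_of_nonneg_right hK (sq_nonneg _)

theorem pp_two : PP 2 := by
  intro K
  refine ⟨max K 0, le_max_right _ _, ?_⟩
  intro N hN W hW f hf α hα
  have hind : Indep N W := by
    intro v hv x hx hxW
    have hxv : x < v := by
      have := hN v hx
      simpa using this
    obtain ⟨u, hu, w, hw, huw, hnot⟩ := hW {x, v} (by
      intro y hy
      simp only [Finset.mem_insert, Finset.mem_singleton] at hy
      rcases hy with rfl | rfl
      · exact hxW
      · exact hv) (by
        rw [Finset.card_insert_of_notMem, Finset.card_singleton]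
        simp only [Finset.mem_singleton]
        omega)
    simp only [Finset.mem_insert, Finset.mem_singleton] at hu hw
    have h1 : u = x := by
      rcases hu with h | h
      · exact h
      · rcases hw with h' | h' <;> omega
    have h2 : w = v := by
      rcases hw with h | h
      · omega
      · exact h
    subst h1 h2
    exact hnot hx
  have hF : ff f W ≤ α := hα W (Finset.Subset.refl _) hind
  have hF0 : 0 ≤ ff f W := ff_nonneg hf W
  have hP0 : 0 ≤ Ph N f W := Ph_nonneg hf W
  have hα0 : 0 ≤ α := hα.nonneg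
  have h1 : K * ff f W ^ 2 ≤ max K 0 * ff f W ^ 2 :=
    mul_le_mul_of_nonneg_right (le_max_left _ _) (sq_nonneg _)
  have h2 : max K 0 * ff f W ^ 2 ≤ α * (max K 0 * ff f W) := by
    have : ff f W * (max K 0 * ff f W) ≤ α * (max K 0 * ff f W) :=
      mul_le_mul_of_nonneg_right hF (mul_nonneg (le_max_right _ _) hF0)
    nlinarith [this]
  have h3 : α * (max K 0 * ff f W) ≤ α * (Ph N f W + max K 0 * ff f W) :=
    mul_le_mul_of_nonneg_left (by linarith) hα0
  linarith

/-- The truncation of `W` to small back-degrees. -/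
noncomputable def trunc (N : ℕ → Finset ℕ) (W : Finset ℕ) (D : ℝ) : Finset ℕ :=
  W.filter fun v => ((N v ∩ W).card : ℝ) ≤ 3 * D

theorem trunc_sub (N : ℕ → Finset ℕ) (W : Finset ℕ) (D : ℝ) : trunc N W D ⊆ W :=
  Finset.filter_subset _ _

theorem Ph_trunc (N : ℕ → Finset ℕ) (W : Finset ℕ) (D : ℝ) (f : ℕ → ℝ) (hf : ∀ v, 0 ≤ f v) :
    Ph N f (trunc N W D) + 3 * D * (ff f W - ff f (trunc N W D)) ≤ Ph N f W := by
  have hsub := trunc_sub N W D
  have h1 : Ph N f W = ∑ v ∈ trunc N W D, f v * ((N v ∩ W).card : ℝ) +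
      ∑ v ∈ W \ trunc N W D, f v * ((N v ∩ W).card : ℝ) := by
    unfold Ph
    rw [add_comm, Finset.sum_sdiff hsub]
  have h2 : Ph N f (trunc N W D) ≤ ∑ v ∈ trunc N W D, f v * ((N v ∩ W).card : ℝ) := by
    unfold Ph
    refine Finset.sum_le_sum fun v _ => mul_le_mul_of_nonneg_left ?_ (hf v)
    exact_mod_cast Finset.card_le_card (Finset.inter_subset_inter_left hsub)
  have h3 : 3 * D * (ff f W - ff f (trunc N W D)) ≤
      ∑ v ∈ W \ trunc N W D, f v * ((N v ∩ W).card : ℝ) := by
    have : ff f W - ff f (trunc N W D) = ff f (W \ trunc N W D) := by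
      rw [ff_sub hsub]; ring
    rw [this]
    unfold ff
    rw [Finset.mul_sum]
    refine Finset.sum_le_sum fun v hv => ?_
    have hv' : 3 * D < ((N v ∩ W).card : ℝ) := by
      by_contra hcon
      push Not at hcon
      have hv1 := (Finset.mem_sdiff.mp hv).1
      have hv2 := (Finset.mem_sdiff.mp hv).2
      exact hv2 (Finset.mem_filter.mpr ⟨hv1, hcon⟩)
    have := mul_le_mul_of_nonneg_left hv'.le (hf v)
    linarith
  linarith

/-- Improvement step. -/
theorem improve (hS : SparseSpec) (hD : DualSpec) (hC : ClusterSpec) {r : ℕ} (hr : 3 ≤ r)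
    (hP : PP (r - 1)) (K0 : ℝ) (hK0 : 1 ≤ K0) :
    ∃ δ : ℝ, 0 < δ ∧ ∀ K D0 : ℝ, 0 ≤ K → K ≤ K0 → 0 ≤ D0 → SS r K D0 →
      ∃ D0' : ℝ, 0 ≤ D0' ∧ SS r ((1 + δ) * K) D0' := by
  obtain ⟨ε', hε', D1, hD1, hsp⟩ := hS K0 hK0
  -- WLOG ε ≤ 1
  obtain ⟨ε, hε, hε1, hεε⟩ : ∃ ε : ℝ, 0 < ε ∧ ε ≤ 1 ∧ ε ≤ ε' :=
    ⟨min ε' 1, lt_min hε' one_pos, min_le_right _ _, min_le_left _ _⟩
  refine ⟨ε / 7, by positivity, ?_⟩
  intro K D0 hK hKK0 hD0 hSS
  obtain ⟨m0, hm0, hdual⟩ := hD (r - 1) hP (98 * D0 / ε + 1) (by positivity)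
  set s : ℝ := 98 * D0 / ε + 1 with hs
  have hspos : 0 < s := by rw [hs]; positivity
  set D2 : ℝ := max (max D1 2) m0 with hD2
  have hD2a : D1 ≤ D2 := le_trans (le_max_left _ _) (le_max_left _ _)
  have hD2b : 2 ≤ D2 := le_trans (le_max_right _ _) (le_max_left _ _)
  have hD2c : m0 ≤ D2 := le_max_right _ _
  refine ⟨ε / 7 * D2 + (1 + ε / 7) * D0, by positivity, ?_⟩
  intro N hN W hW f hf α hα
  have hF0 : 0 ≤ ff f W := ff_nonneg hf W
  have hP0 : 0 ≤ Ph N f W := Ph_nonneg hf W
  have hα0 : 0 ≤ α := hα.nonneg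
  rcases hF0.eq_or_lt with hF | hF
  · -- F = 0
    rw [← hF]
    simp only [mul_zero, add_zero]
    have : 0 ≤ α * Ph N f W := mul_nonneg hα0 hP0
    nlinarith
  obtain ⟨D, hDdef⟩ : ∃ D : ℝ, Ph N f W = D * ff f W := ⟨Ph N f W / ff f W, by field_simp⟩
  have hDnn : 0 ≤ D := by
    by_contra hcon
    push Not at hcon
    nlinarith
  rcases le_or_gt D D2 with hcase | hcase
  · -- small average degree
    have h := hSS N hN W hW f hf α hα
    have h1 : (1 + ε / 7) * (K * ff f W ^ 2) ≤ (1 + ε / 7) * (α * (Ph N f W + D0 * ff f W)) :=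
      mul_le_mul_of_nonneg_left h (by positivity)
    have h2 : Ph N f W ≤ D2 * ff f W := by
      rw [hDdef]; exact mul_le_mul_of_nonneg_right hcase hF0
    have h3 : α * (ε / 7 * Ph N f W) ≤ α * (ε / 7 * (D2 * ff f W)) :=
      mul_le_mul_of_nonneg_left (mul_le_mul_of_nonneg_left h2 (by positivity)) hα0
    nlinarith [h1, h3]
  · -- large average degree
    set W' := trunc N W D with hW'
    have hsub : W' ⊆ W := trunc_sub N W D
    have hPt := Ph_trunc N W D f hf
    rw [← hW'] at hPt
    have hPW' : 0 ≤ Ph N f W' := Ph_nonneg hf W'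
    have hDpos : 0 < D := by linarith
    have hF'le : ff f W' ≤ ff f W := by
      rw [ff_sub hsub]
      linarith [ff_nonneg hf (W \ W')]
    have hF'ge : 2 / 3 * ff f W ≤ ff f W' := by
      have : 3 * D * (ff f W - ff f W') ≤ D * ff f W := by linarith
      have : D * (3 * (ff f W - ff f W')) ≤ D * ff f W := by linarith
      have := le_of_mul_le_mul_left this hDpos
      linarith
    have hF'pos : 0 < ff f W' := by linarith
    have hdeg : ∀ v ∈ W', ((N v ∩ W').card : ℝ) ≤ 3 * D := by
      intro v hv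
      have h1 := (Finset.mem_filter.mp hv).2
      refine le_trans ?_ h1
      exact_mod_cast Finset.card_le_card (Finset.inter_subset_inter_left hsub)
    have hα' : AlphaBd N f W' α := hα.mono hsub
    have key : (1 + ε / 7) * K * ff f W ≤ α * D := by
      rcases le_or_gt (Tr N f W') (ε * D ^ 2 * ff f W') with hsparse | hdense
      · have h := hsp N hN W' D (by linarith) hdeg f hf α hα' (by
          refine hsparse.trans ?_
          exact mul_le_mul_of_nonneg_right
            (mul_le_mul_of_nonneg_right hεε (sq_nonneg _)) hF'pos.le)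
        have h1 : 2 * K0 * ff f W ≤ α * D := by
          refine le_trans ?_ h
          have : 3 * K0 * (2 / 3 * ff f W) ≤ 3 * K0 * ff f W' :=
            mul_le_mul_of_nonneg_left hF'ge (by linarith)
          linarith
        have h2 : (1 + ε / 7) * K * ff f W ≤ 2 * K0 * ff f W := by
          refine mul_le_mul_of_nonneg_right ?_ hF0
          nlinarith
        linarith
      · -- dense case
        set m : ℕ := ⌈3 * D⌉₊ with hm
        have hm1 : 3 * D ≤ (m : ℝ) := Nat.le_ceil _
        have hm2 : (m : ℝ) ≤ 7 / 2 * D := by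
          have := Nat.ceil_lt_add_one (show (0 : ℝ) ≤ 3 * D by positivity)
          rw [← hm] at this
          linarith
        have hmpos : (0 : ℝ) < m := by linarith
        have hcl := hC r hr s m0 hspos hm0 hdual N hN W' (hW.mono hsub) m (by linarith)
          (by
            intro v hv
            have := (hdeg v hv).trans hm1
            exact_mod_cast this) f hf α K D0 hα0 hK hD0 (by
              intro B hB
              exact hSS N hN B (hW.mono (hB.trans hsub)) f hf α (hα.mono (hB.trans hsub)))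
        -- estimates
        have hTr : 2 * ε / 7 * D * ff f W' ≤ Tr N f W' / m := by
          rw [le_div_iff₀ hmpos]
          have : 2 * ε / 7 * D * ff f W' * m ≤ 2 * ε / 7 * D * ff f W' * (7 / 2 * D) :=
            mul_le_mul_of_nonneg_left hm2 (by positivity)
          nlinarith [this, hdense]
        have hs2 : 4 * D0 * m / s * ff f W' ≤ ε / 7 * D * ff f W' := by
          refine mul_le_mul_of_nonneg_right ?_ hF'pos.le
          rw [div_le_iff₀ hspos]
          have h1 : 4 * D0 * (m : ℝ) ≤ 4 * D0 * (7 / 2 * D) :=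
            mul_le_mul_of_nonneg_left hm2 (by positivity)
          have h2 : ε / 7 * D * s = 14 * D0 * D + ε / 7 * D := by
            rw [hs]; field_simp; ring
          rw [h2]
          have : 0 ≤ ε / 7 * D := by positivity
          linarith
        have hmain : K * ff f W' ^ 2 ≤
            α * (D * (3 * ff f W' - 2 * ff f W) - ε / 7 * D * ff f W') := by
          refine hcl.trans (mul_le_mul_of_nonneg_left ?_ hα0)
          have : Ph N f W' ≤ D * (3 * ff f W' - 2 * ff f W) := by
            nlinarith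
          linarith
        -- finish
        have h5 : ff f W * (D * (3 * ff f W' - 2 * ff f W) - ε / 7 * D * ff f W') ≤
            D * (1 - ε / 7) * ff f W' ^ 2 := by
          have e1 : 0 ≤ (ff f W - ff f W') * (2 * ff f W - ff f W') :=
            mul_nonneg (by linarith) (by linarith)
          have e2 : 0 ≤ ff f W' * (ff f W - ff f W') := mul_nonneg hF'pos.le (by linarith)
          have e3 : D * (1 - ε / 7) * ff f W' ^ 2 -
            ff f W * (D * (3 * ff f W' - 2 * ff f W) - ε / 7 * D * ff f W') =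
            D * ((ff f W - ff f W') * (2 * ff f W - ff f W')) +
            D * (ε / 7) * (ff f W' * (ff f W - ff f W')) := by ring
          have e4 : 0 ≤ D * ((ff f W - ff f W') * (2 * ff f W - ff f W')) :=
            mul_nonneg hDpos.le e1
          have e5 : 0 ≤ D * (ε / 7) * (ff f W' * (ff f W - ff f W')) :=
            mul_nonneg (by positivity) e2
          linarith
        have h6 : (K * ff f W) * ff f W' ^ 2 ≤ (α * (D * (1 - ε / 7))) * ff f W' ^ 2 := by
          have h7 := mul_le_mul_of_nonneg_left hmain hF0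
          have h8 := mul_le_mul_of_nonneg_left h5 hα0
          calc (K * ff f W) * ff f W' ^ 2 = ff f W * (K * ff f W' ^ 2) := by ring
            _ ≤ ff f W * (α * (D * (3 * ff f W' - 2 * ff f W) - ε / 7 * D * ff f W')) := h7
            _ = α * (ff f W * (D * (3 * ff f W' - 2 * ff f W) - ε / 7 * D * ff f W')) := by ring
            _ ≤ α * (D * (1 - ε / 7) * ff f W' ^ 2) := h8
            _ = (α * (D * (1 - ε / 7))) * ff f W' ^ 2 := by ring
        have h9 : K * ff f W ≤ α * (D * (1 - ε / 7)) :=
          le_of_mul_le_mul_right h6 (by positivity)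
        have h10 : (1 + ε / 7) * (K * ff f W) ≤ (1 + ε / 7) * (α * (D * (1 - ε / 7))) :=
          mul_le_mul_of_nonneg_left h9 (by positivity)
        have h11 : (1 + ε / 7) * (α * (D * (1 - ε / 7))) = α * D - (ε / 7) ^ 2 * (α * D) := by
          ring
        have h12 : 0 ≤ (ε / 7) ^ 2 * (α * D) := by positivity
        linarith
    have h13 : (1 + ε / 7) * K * ff f W ^ 2 ≤ α * D * ff f W := by
      calc (1 + ε / 7) * K * ff f W ^ 2 = (1 + ε / 7) * K * ff f W * ff f W := by ring
        _ ≤ α * D * ff f W := mul_le_mul_of_nonneg_right key hF0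
    have h14 : 0 ≤ α * ((ε / 7 * D2 + (1 + ε / 7) * D0) * ff f W) := by positivity
    rw [hDdef, mul_add α]
    linarith

end PPMod

open PPMod in
/-- Module D. -/
theorem specPP (hB : BaseSpec) (hS : SparseSpec) (hD : DualSpec) (hC : ClusterSpec) : PPSpec := by
  intro r hr
  induction r, hr using Nat.le_induction with
  | base => exact pp_two
  | succ r hr ih =>
    intro K
    set K0 : ℝ := max K 1 with hK0
    have hK0' : 1 ≤ K0 := le_max_right _ _
    obtain ⟨δ, hδ, himp⟩ := improve hS hD hC (r := r + 1) (by omega) (by simpa using ih) K0 hK0'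
    have hit : ∀ n : ℕ, ∃ D0 : ℝ, 0 ≤ D0 ∧ SS (r + 1) (min K0 ((1 + δ) ^ n / 4)) D0 := by
      intro n
      induction n with
      | zero =>
        refine ⟨1, zero_le_one, ?_⟩
        exact SS.mono_K (hB (r + 1)) (by
          refine (min_le_right _ _).trans ?_
          norm_num)
      | succ n ihn =>
        obtain ⟨D0, hD0, hSS⟩ := ihn
        have hmin0 : 0 ≤ min K0 ((1 + δ) ^ n / 4) := le_min (by linarith) (by positivity)
        obtain ⟨D0', hD0', hSS'⟩ := himp _ D0 hmin0 (min_le_left _ _) hD0 hSS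
        refine ⟨D0', hD0', SS.mono_K hSS' ?_⟩
        rcases le_total K0 ((1 + δ) ^ n / 4) with h | h
        · rw [min_eq_left h]
          refine (min_le_left _ _).trans ?_
          nlinarith
        · rw [min_eq_right h]
          refine (min_le_right _ _).trans ?_
          rw [pow_succ]
          apply le_of_eq
          ring
    obtain ⟨n, hn⟩ := pow_unbounded_of_one_lt (4 * K0) (show 1 < 1 + δ by linarith)
    obtain ⟨D0, hD0, hSS⟩ := hit n
    refine ⟨D0, hD0, SS.mono_K hSS ?_⟩
    refine le_min (le_max_left _ _) ?_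
    have : K ≤ K0 := le_max_left _ _
    linarith

end Pool.Agent.MP4146e4
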