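import Pool.Agent.Lib.MP_4146e4_co.Full.Spec

/-!
# Module E: the random independent set of one round
-/

namespace Pool.Agent.MP4146e4

open Finset

namespace Round

/-- the expectation of a random subset with density `p` -/
noncomputable def bex (p : ℝ) (n : ℕ) (F : Finset ℕ → ℝ) : ℝ := ex (fun _ _ => p) n F

theorem bex_ind {p : ℝ} {n u : ℕ} (hu : u < n) : bex p n (ind u) = p := by
  unfold bex
  rw [ex_of_loc (Nat.succ_le_of_lt hu) (ind_loc u)]
  show ex (fun _ _ => p) u (fun I => p * ind u (insert u I) + (1 - p) * ind u I) = p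
  rw [ex_congr u _ (fun _ => p), ex_const]
  intro I hI
  have h1 : u ∉ I := fun h => by simpa using hI h
  simp [ind, h1]

theorem bex_ind_mul_aux {p : ℝ} {n u x : ℕ} (hu : u < n) (hx : x < u) :
    bex p n (fun I => ind x I * ind u I) = p ^ 2 := by
  unfold bex
  have hloc : Loc (u + 1) (fun I => ind x I * ind u I) :=
    ((ind_loc x).mono (by omega)).mul (ind_loc u)
  rw [ex_of_loc (Nat.succ_le_of_lt hu) hloc]
  show ex (fun _ _ => p) u (fun I => p * (ind x (insert u I) * ind u (insert u I)) +
    (1 - p) * (ind x I * ind u I)) = p ^ 2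
  rw [ex_congr u _ (fun I => p * ind x I), ex_smul]
  · have := bex_ind (p := p) hx
    unfold bex at this
    rw [this]
    ring
  · intro I hI
    have h1 : u ∉ I := fun h => by simpa using hI h
    have h2 : ind x (insert u I) = ind x I := (ind_loc x) u (by omega) I
    rw [h2]
    simp [ind, h1]

theorem bex_ind_mul {p : ℝ} {n u x : ℕ} (hu : u < n) (hx : x < n) (hne : u ≠ x) :
    bex p n (fun I => ind x I * ind u I) = p ^ 2 := by
  rcases lt_or_gt_of_ne hne with h | h
  · have := bex_ind_mul_aux (p := p) hx h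
    rw [← this]
    congr 1
    funext I
    ring
  · exact bex_ind_mul_aux hu h

theorem card_eq_sum (I S : Finset ℕ) : ((I ∩ S).card : ℝ) = ∑ u ∈ S, ind u I := by
  unfold ind
  rw [Finset.sum_ite_mem, Finset.sum_const, nsmul_eq_mul, mul_one, Finset.inter_comm]

theorem bex_card_sq {p : ℝ} (hp : 0 ≤ p) {n : ℕ} {S : Finset ℕ} (hS : ∀ u ∈ S, u < n) :
    bex p n (fun I => ((I ∩ S).card : ℝ) ^ 2) ≤ S.card * p + (S.card * p) ^ 2 := by
  have h1 : (fun I : Finset ℕ => ((I ∩ S).card : ℝ) ^ 2) =
      fun I => ∑ a ∈ S, ∑ b ∈ S, ind a I * ind b I := by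
    funext I
    rw [card_eq_sum, sq, Finset.sum_mul_sum]
  rw [h1]
  unfold bex
  rw [ex_sum]
  have h2 : ∀ a ∈ S, ex (fun _ _ => p) n (fun I => ∑ b ∈ S, ind a I * ind b I) ≤
      p + S.card * p ^ 2 := by
    intro a ha
    rw [ex_sum, ← Finset.add_sum_erase S _ ha]
    have e1 : ex (fun _ _ => p) n (fun I => ind a I * ind a I) = p := by
      have e0 : (fun I => ind a I * ind a I) = ind a := by
        funext I
        unfold ind
        split_ifs <;> norm_num
      rw [e0]
      exact bex_ind (p := p) (hS a ha)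
    have e2 : ∑ b ∈ S.erase a, ex (fun _ _ => p) n (fun I => ind a I * ind b I) ≤
        S.card * p ^ 2 := by
      have : ∀ b ∈ S.erase a, ex (fun _ _ => p) n (fun I => ind a I * ind b I) = p ^ 2 := by
        intro b hb
        rw [Finset.mem_erase] at hb
        exact bex_ind_mul (hS b hb.2) (hS a ha) hb.1
      rw [Finset.sum_congr rfl this, Finset.sum_const, nsmul_eq_mul]
      apply mul_le_mul_of_nonneg_right _ (sq_nonneg p)
      exact_mod_cast Finset.card_le_card (Finset.erase_subset a S)
    rw [e1]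
    linarith
  calc ∑ a ∈ S, ex (fun _ _ => p) n (fun I => ∑ b ∈ S, ind a I * ind b I)
      ≤ ∑ _a ∈ S, (p + S.card * p ^ 2) := Finset.sum_le_sum h2
    _ = S.card * p + (S.card * p) ^ 2 := by
      rw [Finset.sum_const, nsmul_eq_mul]
      ring

theorem exp_neg_le2 {t : ℝ} (ht : 0 ≤ t) : Real.exp (-t) ≤ 1 - t + t ^ 2 / 2 := by
  have h1 := Real.quadratic_le_exp_of_nonneg ht
  have h2 : 0 < 1 + t + t ^ 2 / 2 := by positivity
  rw [Real.exp_neg]
  calc (Real.exp t)⁻¹ ≤ (1 + t + t ^ 2 / 2)⁻¹ := inv_anti₀ h2 h1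
    _ ≤ 1 - t + t ^ 2 / 2 := by
      rw [inv_le_iff_one_le_mul₀ h2]
      nlinarith [sq_nonneg (t ^ 2)]

/-- the vertices of `R` with few back-neighbours in `R` -/
noncomputable def core (N : ℕ → Finset ℕ) (m : ℝ) (R : Finset ℕ) : Finset ℕ :=
  R.filter fun u => ((N u ∩ R).card : ℝ) ≤ m

end Round

open Round in
/-- ROUND -/
theorem specRound (hDual : DualSpec) : RoundSpec := by
  classical
  intro r hPP
  obtain ⟨m, hm1, hD⟩ := hDual r hPP 10 (by norm_num)
  have hm0 : 0 < m := by linarith
  refine ⟨1 / m ^ 2, by positivity, ⌈m⌉₊, ?_⟩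
  intro d hd N hN n hCF hdeg
  have hmd : m ≤ d := (Nat.le_ceil m).trans (by exact_mod_cast hd)
  have hd0 : (0 : ℝ) < d := lt_of_lt_of_le hm0 hmd
  set p : ℝ := m / (2 * d) with hp
  have hp0 : 0 ≤ p := by positivity
  have hp1 : p ≤ 1 := by
    rw [hp, div_le_one (by positivity)]
    linarith
  have hpd : d * p = m / 2 := by
    rw [hp]
    field_simp
  -- the distributions
  have hex : ∀ R : Finset ℕ, ∃ w : Finset ℕ → ℝ, R ⊆ range n →
      (∀ A, 0 ≤ w A) ∧ (∀ A, w A ≠ 0 → A ⊆ core N m R ∧ Indep N A) ∧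
      ∑ A ∈ (core N m R).powerset, w A = 1 ∧
      ∀ v ∈ core N m R, ∑ A ∈ (core N m R).powerset, w A * ind v A = 10 / m := by
    intro R
    by_cases hR : R ⊆ range n
    · obtain ⟨w, hw⟩ := hD N hN (core N m R)
        (hCF.mono ((Finset.filter_subset _ _).trans hR)) m le_rfl (by
          intro v hv
          rw [core, Finset.mem_filter] at hv
          refine le_trans ?_ hv.2
          exact_mod_cast Finset.card_le_card
            (Finset.inter_subset_inter_left (Finset.filter_subset _ _)))
      exact ⟨w, fun _ => hw⟩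
    · exact ⟨fun _ => 0, fun h => absurd h hR⟩
  choose w hw using hex
  let inner : (Finset ℕ → ℝ) → Finset ℕ → ℝ := fun F R =>
    ∑ A ∈ (core N m R).powerset, w R A * F A
  let EE : (Finset ℕ → ℝ) → ℝ := fun F => bex p n (inner F)
  have hbmono : ∀ G G' : Finset ℕ → ℝ, (∀ R, R ⊆ range n → G R ≤ G' R) →
      bex p n G ≤ bex p n G' := fun G G' h =>
    ex_mono_aux (fun _ _ => hp0) (fun _ _ => hp1) n G G' h
  have hgood : GoodOp N n EE := by
    refine ⟨?_, ?_, ?_, ?_⟩
    · intro F F' h
      apply hbmono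
      intro R hR
      apply Finset.sum_le_sum
      intro A _
      by_cases h0 : w R A = 0
      · rw [h0, zero_mul, zero_mul]
      · obtain ⟨h1, h2⟩ := (hw R hR).2.1 A h0
        exact mul_le_mul_of_nonneg_left
          (h A ((h1.trans (Finset.filter_subset _ _)).trans hR) h2) ((hw R hR).1 A)
    · intro F F'
      show bex p n (inner fun I => F I + F' I) = bex p n (inner F) + bex p n (inner F')
      unfold bex
      rw [← ex_add]
      congr 1
      funext R
      simp only [inner, mul_add, Finset.sum_add_distrib]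
    · intro c F
      show bex p n (inner fun I => c * F I) = c * bex p n (inner F)
      unfold bex
      rw [← ex_smul]
      congr 1
      funext R
      simp only [inner, Finset.mul_sum]
      exact Finset.sum_congr rfl fun _ _ => by ring
    · intro c
      show bex p n (inner fun _ => c) = c
      unfold bex
      rw [ex_congr n _ (fun _ => c), ex_const]
      intro R hR
      simp only [inner]
      rw [← Finset.sum_mul, (hw R hR).2.2.1, one_mul]
  refine ⟨EE, hgood, ?_⟩
  intro v hv S hS hcard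
  have hSn : ∀ u ∈ S, u < n := fun u hu => by
    have := Finset.mem_range.1 (hN v (hS hu))
    omega
  have hScard : (S.card : ℝ) ≤ d := by
    exact_mod_cast (Finset.card_le_card hS).trans (hdeg v hv)
  -- the marginals
  have hmarg : ∀ u ∈ S, 5 / (2 * (d : ℝ)) ≤ EE (ind u) := by
    intro u hu
    have hun := hSn u hu
    have h1 : bex p n (fun R => 10 / m * (ind u R - 1 / m * ∑ x ∈ N u, ind x R * ind u R)) ≤
        EE (ind u) := by
      apply hbmono
      intro R hR
      by_cases huR : u ∈ R
      · have e1 : ind u R = 1 := by simp [ind, huR]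
        have e2 : ∑ x ∈ N u, ind x R * ind u R = ((N u ∩ R).card : ℝ) := by
          rw [e1, Finset.inter_comm, card_eq_sum]
          simp
        by_cases hc : ((N u ∩ R).card : ℝ) ≤ m
        · have hcore : u ∈ core N m R := by
            rw [core, Finset.mem_filter]
            exact ⟨huR, hc⟩
          show _ ≤ ∑ A ∈ (core N m R).powerset, w R A * ind u A
          rw [(hw R hR).2.2.2 u hcore, e2, e1]
          have : (0 : ℝ) ≤ 1 / m * ((N u ∩ R).card : ℝ) := by positivity
          have h10 : (0 : ℝ) ≤ 10 / m := by positivity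
          nlinarith
        · push Not at hc
          have hnn : 0 ≤ ∑ A ∈ (core N m R).powerset, w R A * ind u A :=
            Finset.sum_nonneg fun A _ => mul_nonneg ((hw R hR).1 A) (ind_nonneg _ _)
          refine le_trans ?_ hnn
          rw [e2, e1]
          have h2 : 1 ≤ 1 / m * ((N u ∩ R).card : ℝ) := by
            rw [one_div, inv_mul_eq_div, one_le_div hm0]
            exact hc.le
          have h10 : (0 : ℝ) ≤ 10 / m := by positivity
          nlinarith
      · have e1 : ind u R = 0 := by simp [ind, huR]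
        have hnn : 0 ≤ ∑ A ∈ (core N m R).powerset, w R A * ind u A :=
          Finset.sum_nonneg fun A _ => mul_nonneg ((hw R hR).1 A) (ind_nonneg _ _)
        refine le_trans ?_ hnn
        rw [e1]
        simp
    refine le_trans ?_ h1
    have h2 : bex p n (fun R => 10 / m * (ind u R - 1 / m * ∑ x ∈ N u, ind x R * ind u R)) =
        10 / m * (p - 1 / m * ((N u).card * p ^ 2)) := by
      unfold bex
      rw [ex_smul, ex_sub, ex_smul, ex_sum]
      have e1 := bex_ind (p := p) hun
      unfold bex at e1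
      rw [e1]
      have e2 : ∀ x ∈ N u, ex (fun _ _ => p) n (fun R => ind x R * ind u R) = p ^ 2 := by
        intro x hx
        have hxu := Finset.mem_range.1 (hN u hx)
        exact bex_ind_mul hun (by omega) (by omega)
      rw [Finset.sum_congr rfl e2, Finset.sum_const, nsmul_eq_mul]
    rw [h2]
    have h3 : ((N u).card : ℝ) ≤ d := by exact_mod_cast hdeg u hun
    have h4 : ((N u).card : ℝ) * p ^ 2 ≤ m / 2 * p := by
      rw [← hpd]
      nlinarith [sq_nonneg p]
    have h5 : 1 / m * (((N u).card : ℝ) * p ^ 2) ≤ p / 2 := by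
      calc 1 / m * (((N u).card : ℝ) * p ^ 2) ≤ 1 / m * (m / 2 * p) :=
            mul_le_mul_of_nonneg_left h4 (by positivity)
        _ = p / 2 := by field_simp
    calc 5 / (2 * (d : ℝ)) = 10 / m * (p / 2) := by
          rw [hp]
          field_simp
          norm_num
      _ ≤ 10 / m * (p - 1 / m * (((N u).card : ℝ) * p ^ 2)) :=
          mul_le_mul_of_nonneg_left (by linarith) (by positivity)
  -- sums
  have hEsum : ∀ F : ℕ → Finset ℕ → ℝ, EE (fun I => ∑ u ∈ S, F u I) = ∑ u ∈ S, EE (F u) := by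
    intro F
    have : ∀ T : Finset ℕ, EE (fun I => ∑ u ∈ T, F u I) = ∑ u ∈ T, EE (F u) := by
      intro T
      induction T using Finset.induction_on with
      | empty => simpa using hgood.const 0
      | insert a T ha ih =>
        simp only [Finset.sum_insert ha]
        rw [hgood.add, ih]
    exact this S
  have hmean : 2 ≤ EE (fun I => ((I ∩ S).card : ℝ)) := by
    have e1 : (fun I : Finset ℕ => ((I ∩ S).card : ℝ)) = fun I => ∑ u ∈ S, ind u I := by
      funext I
      exact card_eq_sum I S
    rw [e1, hEsum]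
    calc (2 : ℝ) = (4 / 5 * d) * (5 / (2 * d)) := by
          field_simp
          norm_num
      _ ≤ S.card * (5 / (2 * d)) := mul_le_mul_of_nonneg_right hcard (by positivity)
      _ = ∑ _u ∈ S, 5 / (2 * (d : ℝ)) := by rw [Finset.sum_const, nsmul_eq_mul]
      _ ≤ ∑ u ∈ S, EE (ind u) := Finset.sum_le_sum hmarg
  have hsq : EE (fun I => ((I ∩ S).card : ℝ) ^ 2) ≤ m ^ 2 := by
    have h1 : EE (fun I => ((I ∩ S).card : ℝ) ^ 2) ≤
        bex p n (fun R => ((R ∩ S).card : ℝ) ^ 2) := by
      apply hbmono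
      intro R hR
      show ∑ A ∈ (core N m R).powerset, w R A * ((A ∩ S).card : ℝ) ^ 2 ≤ _
      calc ∑ A ∈ (core N m R).powerset, w R A * ((A ∩ S).card : ℝ) ^ 2
          ≤ ∑ A ∈ (core N m R).powerset, w R A * ((R ∩ S).card : ℝ) ^ 2 := by
            apply Finset.sum_le_sum
            intro A hA
            rw [Finset.mem_powerset] at hA
            apply mul_le_mul_of_nonneg_left _ ((hw R hR).1 A)
            have : ((A ∩ S).card : ℝ) ≤ (R ∩ S).card := by
              exact_mod_cast Finset.card_le_card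
                (Finset.inter_subset_inter_right (hA.trans (Finset.filter_subset _ _)))
            exact pow_le_pow_left₀ (Nat.cast_nonneg _) this 2
        _ = ((R ∩ S).card : ℝ) ^ 2 := by
            rw [← Finset.sum_mul, (hw R hR).2.2.1, one_mul]
    refine h1.trans ((bex_card_sq hp0 hSn).trans ?_)
    have h2 : (S.card : ℝ) * p ≤ m / 2 := by
      rw [← hpd]
      exact mul_le_mul_of_nonneg_right hScard hp0
    have h3 : 0 ≤ (S.card : ℝ) * p := by positivity
    nlinarith
  -- conclusion
  set θ : ℝ := 1 / m ^ 2 with hθ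
  have hθ0 : 0 < θ := by positivity
  have hθm : θ * m ^ 2 = 1 := by
    rw [hθ]
    field_simp
  have h1 : EE (fun I => Real.exp (-(θ * ((I ∩ S).card : ℝ)))) ≤
      EE (fun I => 1 + ((-θ) * ((I ∩ S).card : ℝ) + θ ^ 2 / 2 * ((I ∩ S).card : ℝ) ^ 2)) := by
    apply hgood.mono
    intro I _ _
    have h2 := exp_neg_le2 (t := θ * ((I ∩ S).card : ℝ)) (by positivity)
    refine h2.trans (le_of_eq ?_)
    ring
  have h2 : EE (fun I => 1 + ((-θ) * ((I ∩ S).card : ℝ) + θ ^ 2 / 2 * ((I ∩ S).card : ℝ) ^ 2)) =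
      1 + ((-θ) * EE (fun I => ((I ∩ S).card : ℝ)) +
        θ ^ 2 / 2 * EE (fun I => ((I ∩ S).card : ℝ) ^ 2)) := by
    rw [hgood.add (fun _ => 1), hgood.const, hgood.add, hgood.smul, hgood.smul]
  rw [h2] at h1
  refine h1.trans ?_
  have h3 : (-θ) * EE (fun I => ((I ∩ S).card : ℝ)) ≤ (-θ) * 2 :=
    mul_le_mul_of_nonpos_left hmean (by linarith)
  have h4 : θ ^ 2 / 2 * EE (fun I => ((I ∩ S).card : ℝ) ^ 2) ≤ θ / 2 := by
    calc θ ^ 2 / 2 * EE (fun I => ((I ∩ S).card : ℝ) ^ 2) ≤ θ ^ 2 / 2 * m ^ 2 :=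
          mul_le_mul_of_nonneg_left hsq (by positivity)
      _ = θ / 2 * (θ * m ^ 2) := by ring
      _ = θ / 2 := by rw [hθm, mul_one]
  have h5 := Real.add_one_le_exp (-(3 / 2 * θ))
  linarith

end Pool.Agent.MP4146e4
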