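import Pool.Agent.Lib.MP_4146e4_co.Full.Spec
import Pool.Agent.Lib.MP_4146e4_co.Main

/-!
# Module A2: few triangles on average
-/

namespace Pool.Agent.MP4146e4

open Finset

theorem pr_eq_zero {N : ℕ → Finset ℕ} (hN : ∀ v, N v ⊆ range v) {a β : ℝ} (hβ : 0 ≤ β) (v : ℕ)
    (I : Finset ℕ) (h : ∃ x ∈ N v, x ∈ I) : pr N a β v I = 0 := by
  obtain ⟨x, hx, hxI⟩ := h
  have : wt N a β v I = 0 := by
    rw [wt_eq hN, Finset.prod_eq_zero hx (by simp [phi, hxI]), mul_zero]
  unfold pr
  rw [this, if_pos hβ]

/-- The power of the reciprocal is at most a linear function. -/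
theorem pow_le_lin {lam M D : ℝ} (hl : 0 ≤ lam) (hM : 0 ≤ M) (hD : 0 < D)
    (hβ : lam * M / D ≤ 1 / 2) {k : ℕ} (hk : (k : ℝ) ≤ 3 * D) :
    ((1 - lam * M / D)⁻¹) ^ k ≤ 1 + k / (3 * D) * Real.exp (6 * lam * M) := by
  have h0 : 0 ≤ lam * M / D := by positivity
  calc ((1 - lam * M / D)⁻¹) ^ k ≤ (Real.exp (2 * (lam * M / D))) ^ k :=
        pow_le_pow_left₀ (inv_nonneg.2 (by linarith)) (inv_le_exp h0 hβ) _
    _ = Real.exp (k / (3 * D) * (6 * lam * M)) := by
        rw [← Real.exp_nat_mul]
        congr 1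
        field_simp
        ring
    _ ≤ _ := exp_chord (by positivity) ((div_le_one (by positivity)).2 hk)

theorem sparse_spec : SparseSpec := by
  intro K0 hK0
  set lam : ℝ := 6 * K0 with hlam
  have hl0 : 0 < lam := by linarith
  set M : ℝ := Real.exp (16 * lam) with hM
  have hM0 : 0 < M := Real.exp_pos _
  have hM1 : 1 < M := by
    rw [hM]
    exact Real.one_lt_exp_iff.2 (by linarith)
  have hE0 : 0 < Real.exp (6 * lam * M) := Real.exp_pos _
  refine ⟨3 / Real.exp (6 * lam * M), by positivity, max 1 (2 * lam * M), le_max_left _ _, ?_⟩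
  intro N hN W D hD hdeg f hf α hα hTr
  have hD1 : 1 ≤ D := (le_max_left _ _).trans hD
  have hD2 : 2 * lam * M ≤ D := (le_max_right _ _).trans hD
  have hD0 : 0 < D := by linarith
  have hF := ff_nonneg hf W
  have hβ1 : lam * M / D ≤ 1 / 2 := by
    rw [div_le_iff₀ hD0]
    linarith
  have hβ0 : 0 ≤ lam * M / D := by positivity
  have ha0 : 0 < lam / D := by positivity
  have haβ : lam / D < lam * M / D := by
    apply div_lt_div_of_pos_right _ hD0
    nlinarith
  have hratio : lam * M / D / (lam / D) = M := by field_simp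
  set N' : ℕ → Finset ℕ := fun v => N v ∩ W with hN'
  have hN's : ∀ v, N' v ⊆ range v := fun v => inter_subset_left.trans (hN v)
  set q := pr N' (lam / D) (lam * M / D) with hq
  have hq0 : ∀ v I, 0 ≤ q v I := fun v I => pr_nonneg hN's ha0.le hβ0 hβ1 v I
  have hq1 : ∀ v I, q v I ≤ 1 := fun v I => (pr_le hβ0 v I).trans (by linarith)
  obtain ⟨n, hn⟩ : ∃ n, W ⊆ range n := ⟨W.sup id + 1, fun x hx => by
    rw [mem_range]
    exact Nat.lt_succ_of_le (Finset.le_sup (f := id) hx)⟩
  -- the weight of the random set is at most `α`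
  have h1 : ex q n (fun I => ∑ v ∈ W, f v * ind v I) ≤ α := by
    have h := le_ex_of_indep hN's hq0 hq1
      (fun v I h => pr_eq_zero hN's hβ0 v I h) (-α) n
      (fun I => (-1) * ∑ v ∈ W, f v * ind v I) (by
        intro I _ hI
        have h2 := hα (W ∩ I) inter_subset_left (by
          intro v hv x hx hxI
          rw [mem_inter] at hv hxI
          exact hI v hv.2 x (mem_inter.2 ⟨hx, hxI.1⟩) hxI.2)
        have h3 : ∑ v ∈ W, f v * ind v I = ff f (W ∩ I) := by
          unfold ff ind
          simp only [mul_ite, mul_one, mul_zero]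
          rw [Finset.sum_ite_mem]
        rw [h3]
        linarith)
    rw [ex_smul] at h
    linarith
  -- the marginals
  have h2 : ∀ v ∈ W, lam / D - (1 - lam * M / D)⁻¹ / (16 * lam) *
      ∑ u ∈ N' v, (lam / D) ^ 2 * ((1 - lam * M / D)⁻¹) ^ (N' u ∩ N' v).card ≤
      ex q n (ind v) := by
    intro v hv
    rw [ex_ind (mem_range.1 (hn hv))]
    have h := pr_ge hN's ha0 haβ hβ1 v
    rwa [hratio, hM, Real.log_exp] at h
  have hinv : (1 - lam * M / D)⁻¹ ≤ 2 := by
    rw [inv_le_iff_one_le_mul₀ (by linarith)]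
    linarith
  have hinv0 : 0 ≤ (1 - lam * M / D)⁻¹ := inv_nonneg.2 (by linarith)
  have h3 : ∀ v ∈ W, ∑ u ∈ N' v, (lam / D) ^ 2 * ((1 - lam * M / D)⁻¹) ^ (N' u ∩ N' v).card ≤
      (lam / D) ^ 2 * (3 * D + Real.exp (6 * lam * M) / (3 * D) *
        ∑ z ∈ N v ∩ W, ((N z ∩ (N v ∩ W)).card : ℝ)) := by
    intro v hv
    rw [← Finset.mul_sum]
    apply mul_le_mul_of_nonneg_left _ (sq_nonneg _)
    calc ∑ u ∈ N' v, ((1 - lam * M / D)⁻¹) ^ (N' u ∩ N' v).card ≤
        ∑ u ∈ N' v, (1 + ((N u ∩ (N v ∩ W)).card : ℝ) / (3 * D) * Real.exp (6 * lam * M)) := by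
          apply Finset.sum_le_sum
          intro u _
          have e : N' u ∩ N' v = N u ∩ (N v ∩ W) := by
            ext x
            simp only [hN', mem_inter]
            tauto
          rw [e]
          apply pow_le_lin hl0.le hM0.le hD0 hβ1
          refine le_trans ?_ (hdeg v hv)
          exact_mod_cast Finset.card_le_card inter_subset_right
      _ = (N v ∩ W).card + Real.exp (6 * lam * M) / (3 * D) *
            ∑ z ∈ N v ∩ W, ((N z ∩ (N v ∩ W)).card : ℝ) := by
          rw [Finset.sum_add_distrib, Finset.mul_sum]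
          simp only [Finset.sum_const, nsmul_eq_mul, mul_one]
          congr 1
          apply Finset.sum_congr rfl
          intro u _
          ring
      _ ≤ _ := by
          have := hdeg v hv
          linarith
  have h4 : lam / D * ff f W - 2 / (16 * lam) * ((lam / D) ^ 2 * (3 * D * ff f W +
      Real.exp (6 * lam * M) / (3 * D) * Tr N f W)) ≤ α := by
    refine le_trans ?_ h1
    rw [ex_sum]
    have e1 : lam / D * ff f W - 2 / (16 * lam) * ((lam / D) ^ 2 * (3 * D * ff f W +
        Real.exp (6 * lam * M) / (3 * D) * Tr N f W)) =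
        ∑ v ∈ W, f v * (lam / D - 2 / (16 * lam) * ((lam / D) ^ 2 * (3 * D +
          Real.exp (6 * lam * M) / (3 * D) *
            ∑ z ∈ N v ∩ W, ((N z ∩ (N v ∩ W)).card : ℝ)))) := by
      unfold ff Tr
      simp only [mul_sub, mul_add, Finset.sum_sub_distrib, Finset.sum_add_distrib, Finset.mul_sum]
      congr 1
      · apply Finset.sum_congr rfl
        intro v _
        ring
      · congr 1
        · apply Finset.sum_congr rfl
          intro v _
          ring
        · apply Finset.sum_congr rfl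
          intro v _
          apply Finset.sum_congr rfl
          intro z _
          ring
    rw [e1]
    apply Finset.sum_le_sum
    intro v hv
    rw [ex_smul]
    apply mul_le_mul_of_nonneg_left _ (hf v)
    refine le_trans ?_ (h2 v hv)
    apply sub_le_sub_left
    apply mul_le_mul _ (h3 v hv) _ (by positivity)
    · apply div_le_div_of_nonneg_right hinv (by positivity)
    · exact Finset.sum_nonneg fun u _ => mul_nonneg (sq_nonneg _) (pow_nonneg hinv0 _)
  have h5 : Real.exp (6 * lam * M) / (3 * D) * Tr N f W ≤ D * ff f W := by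
    calc Real.exp (6 * lam * M) / (3 * D) * Tr N f W ≤
        Real.exp (6 * lam * M) / (3 * D) * (3 / Real.exp (6 * lam * M) * D ^ 2 * ff f W) :=
          mul_le_mul_of_nonneg_left hTr (by positivity)
      _ = D * ff f W := by field_simp
  have h6 : 2 / (16 * lam) * ((lam / D) ^ 2 * (3 * D * ff f W +
      Real.exp (6 * lam * M) / (3 * D) * Tr N f W)) ≤ lam / (2 * D) * ff f W := by
    calc 2 / (16 * lam) * ((lam / D) ^ 2 * (3 * D * ff f W +
        Real.exp (6 * lam * M) / (3 * D) * Tr N f W)) ≤
        2 / (16 * lam) * ((lam / D) ^ 2 * (3 * D * ff f W + D * ff f W)) := by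
          apply mul_le_mul_of_nonneg_left _ (by positivity)
          apply mul_le_mul_of_nonneg_left _ (by positivity)
          linarith
      _ = lam / (2 * D) * ff f W := by
          field_simp
          ring
  have h7 : lam / D * ff f W - lam / (2 * D) * ff f W = 3 * K0 * ff f W / D := by
    rw [hlam]
    field_simp
    ring
  have h8 : 3 * K0 * ff f W / D ≤ α := by linarith
  rwa [div_le_iff₀ hD0] at h8

end Pool.Agent.MP4146e4
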