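import Pool.Agent.Lib.MP_4146e4_co.Graph

/-!
# Specification of the modules of the proof of S08351

Ordered graphs are given by the back-neighbourhoods `N v ⊆ range v`; `Indep N I` (file `Process`)
says that `I` is independent. `W` is a finite vertex set, `f ≥ 0` a weight.
Paper proof: `/team-store/MP_4146e4_PROOF.md` (ideas row 775).
-/

namespace Pool.Agent.MP4146e4

open Finset

/-- No clique with `r` vertices inside `W`. -/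
def CF (N : ℕ → Finset ℕ) (W : Finset ℕ) (r : ℕ) : Prop :=
  ∀ S ⊆ W, S.card = r → ∃ u ∈ S, ∃ v ∈ S, u < v ∧ u ∉ N v

/-- Weight of a set. -/
noncomputable def ff (f : ℕ → ℝ) (W : Finset ℕ) : ℝ := ∑ v ∈ W, f v

/-- Weighted number of edges inside `W`. -/
noncomputable def Ph (N : ℕ → Finset ℕ) (f : ℕ → ℝ) (W : Finset ℕ) : ℝ :=
  ∑ v ∈ W, f v * ((N v ∩ W).card : ℝ)

/-- Weighted number of triangles inside `W`. -/
noncomputable def Tr (N : ℕ → Finset ℕ) (f : ℕ → ℝ) (W : Finset ℕ) : ℝ :=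
  ∑ y ∈ W, f y * ∑ z ∈ N y ∩ W, ((N z ∩ (N y ∩ W)).card : ℝ)

/-- `α` bounds the weight of all independent subsets of `W`. -/
def AlphaBd (N : ℕ → Finset ℕ) (f : ℕ → ℝ) (W : Finset ℕ) (α : ℝ) : Prop :=
  ∀ I ⊆ W, Indep N I → ff f I ≤ α

/-- The weighted bound with constants `K`, `D0` for vertex sets without `r`-cliques. -/
def SS (r : ℕ) (K D0 : ℝ) : Prop :=
  ∀ N : ℕ → Finset ℕ, (∀ v, N v ⊆ range v) → ∀ W, CF N W r → ∀ f : ℕ → ℝ, (∀ v, 0 ≤ f v) →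
    ∀ α, AlphaBd N f W α → K * ff f W ^ 2 ≤ α * (Ph N f W + D0 * ff f W)

/-- The weighted bound with arbitrarily large constant. -/
def PP (r : ℕ) : Prop := ∀ K : ℝ, ∃ D0 : ℝ, 0 ≤ D0 ∧ SS r K D0

/-- Module A1: the trivial bound. -/
def BaseSpec : Prop := ∀ r : ℕ, SS r (1 / 4) 1

/-- Module A2: few triangles on average. -/
def SparseSpec : Prop :=
  ∀ K0 : ℝ, 1 ≤ K0 → ∃ ε : ℝ, 0 < ε ∧ ∃ D1 : ℝ, 1 ≤ D1 ∧
    ∀ N : ℕ → Finset ℕ, (∀ v, N v ⊆ range v) → ∀ W : Finset ℕ, ∀ D : ℝ, D1 ≤ D →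
      (∀ v ∈ W, ((N v ∩ W).card : ℝ) ≤ 3 * D) → ∀ f : ℕ → ℝ, (∀ v, 0 ≤ f v) →
      ∀ α, AlphaBd N f W α → Tr N f W ≤ ε * D ^ 2 * ff f W → 3 * K0 * ff f W ≤ α * D

/-- Random independent sets with exact marginals `s / m`. -/
def Dual (r : ℕ) (s m0 : ℝ) : Prop :=
  ∀ N : ℕ → Finset ℕ, (∀ v, N v ⊆ range v) → ∀ U, CF N U r → ∀ m : ℝ, m0 ≤ m →
    (∀ v ∈ U, ((N v ∩ U).card : ℝ) ≤ m) →
    ∃ w : Finset ℕ → ℝ, (∀ A, 0 ≤ w A) ∧ (∀ A, w A ≠ 0 → A ⊆ U ∧ Indep N A) ∧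
      ∑ A ∈ U.powerset, w A = 1 ∧ ∀ v ∈ U, ∑ A ∈ U.powerset, w A * ind v A = s / m

/-- Module B: duality. -/
def DualSpec : Prop := ∀ r : ℕ, PP r → ∀ s : ℝ, 0 < s → ∃ m0 : ℝ, 1 ≤ m0 ∧ Dual r s m0

/-- Module C: the cluster lemma. -/
def ClusterSpec : Prop :=
  ∀ r : ℕ, 3 ≤ r → ∀ s m0 : ℝ, 0 < s → 1 ≤ m0 → Dual (r - 1) s m0 →
    ∀ N : ℕ → Finset ℕ, (∀ v, N v ⊆ range v) → ∀ W, CF N W r → ∀ m : ℕ, m0 ≤ m →
      (∀ v ∈ W, (N v ∩ W).card ≤ m) → ∀ f : ℕ → ℝ, (∀ v, 0 ≤ f v) →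
      ∀ α K D0 : ℝ, 0 ≤ α → 0 ≤ K → 0 ≤ D0 →
        (∀ B ⊆ W, K * ff f B ^ 2 ≤ α * (Ph N f B + D0 * ff f B)) →
        K * ff f W ^ 2 ≤ α * (Ph N f W - Tr N f W / m + 4 * D0 * m / s * ff f W)

/-- Module D: the weighted bound holds for all `r ≥ 2`. -/
def PPSpec : Prop := ∀ r : ℕ, 2 ≤ r → PP r

/-- An expectation operator of a random independent subset of `range n`. -/
structure GoodOp (N : ℕ → Finset ℕ) (n : ℕ) (EE : (Finset ℕ → ℝ) → ℝ) : Prop where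
  mono : ∀ F F' : Finset ℕ → ℝ, (∀ I, I ⊆ range n → Indep N I → F I ≤ F' I) → EE F ≤ EE F'
  add : ∀ F F' : Finset ℕ → ℝ, EE (fun I => F I + F' I) = EE F + EE F'
  smul : ∀ (c : ℝ) (F : Finset ℕ → ℝ), EE (fun I => c * F I) = c * EE F
  const : ∀ c : ℝ, EE (fun _ => c) = c

/-- Module E: the random independent set of one round. -/
def RoundSpec : Prop :=
  ∀ r : ℕ, PP r → ∃ θ : ℝ, 0 < θ ∧ ∃ d0 : ℕ, ∀ d : ℕ, d0 ≤ d →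
    ∀ N : ℕ → Finset ℕ, (∀ v, N v ⊆ range v) → ∀ n : ℕ, CF N (range n) r →
      (∀ v, v < n → (N v).card ≤ d) →
      ∃ EE : (Finset ℕ → ℝ) → ℝ, GoodOp N n EE ∧
        ∀ v, v < n → ∀ S ⊆ N v, 4 / 5 * (d : ℝ) ≤ S.card →
          EE (fun I => Real.exp (-(θ * ((I ∩ S).card : ℝ)))) ≤ Real.exp (-(3 / 2 * θ))

/-- Module F: the colouring statement for ordered graphs. -/
def ColourSpec : Prop :=
  ∀ θ : ℝ, 0 < θ → ∀ d : ℕ, 10 ≤ d → ∀ N : ℕ → Finset ℕ, (∀ v, N v ⊆ range v) → ∀ n : ℕ,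
    (∀ v, v < n → (N v).card ≤ d) →
    ∀ EE : (Finset ℕ → ℝ) → ℝ, GoodOp N n EE →
      (∀ v, v < n → ∀ S ⊆ N v, 4 / 5 * (d : ℝ) ≤ S.card →
          EE (fun I => Real.exp (-(θ * ((I ∩ S).card : ℝ)))) ≤ Real.exp (-(3 / 2 * θ))) →
      (n : ℝ) < Real.exp (θ / 20 * d) →
      ∃ c : ℕ → ℕ, (∀ v, v < n → c v < d) ∧ ∀ v, v < n → ∀ x ∈ N v, c x ≠ c v

/-! ### Small common facts -/

theorem ff_nonneg {f : ℕ → ℝ} (hf : ∀ v, 0 ≤ f v) (W : Finset ℕ) : 0 ≤ ff f W :=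
  Finset.sum_nonneg fun v _ => hf v

theorem Ph_nonneg {N : ℕ → Finset ℕ} {f : ℕ → ℝ} (hf : ∀ v, 0 ≤ f v) (W : Finset ℕ) :
    0 ≤ Ph N f W :=
  Finset.sum_nonneg fun v _ => mul_nonneg (hf v) (Nat.cast_nonneg _)

theorem Tr_nonneg {N : ℕ → Finset ℕ} {f : ℕ → ℝ} (hf : ∀ v, 0 ≤ f v) (W : Finset ℕ) :
    0 ≤ Tr N f W :=
  Finset.sum_nonneg fun v _ => mul_nonneg (hf v) (Finset.sum_nonneg fun _ _ => Nat.cast_nonneg _)

theorem AlphaBd.nonneg {N : ℕ → Finset ℕ} {f : ℕ → ℝ} {W : Finset ℕ} {α : ℝ}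
    (h : AlphaBd N f W α) : 0 ≤ α := by
  have := h ∅ (Finset.empty_subset _) (fun v hv => by simp at hv)
  simpa [ff] using this

theorem AlphaBd.mono {N : ℕ → Finset ℕ} {f : ℕ → ℝ} {W W' : Finset ℕ} {α : ℝ}
    (h : AlphaBd N f W α) (hW : W' ⊆ W) : AlphaBd N f W' α :=
  fun I hI hI' => h I (hI.trans hW) hI'

theorem CF.mono {N : ℕ → Finset ℕ} {W W' : Finset ℕ} {r : ℕ} (h : CF N W r) (hW : W' ⊆ W) :
    CF N W' r := fun S hS hr => h S (hS.trans hW) hr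

end Pool.Agent.MP4146e4
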