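import Pool.Agent.Lib.MP_4146e4_co.Full.Round
import Pool.Agent.Lib.MP_4146e4_co.Full.Colour
import Pool.Agent.Lib.MP_4146e4_co.Full.Final

/-!
# The stronger form: linearly many colours

For every `ε > 0`: a `K_r`-free `d`-degenerate graph with fewer than `exp (c d)` vertices is
`k`-colourable for every `k ≥ ε d`.
-/

namespace Pool.Agent.MP4146e4

open Finset

open Round in
/-- One round with an arbitrary rate. -/
theorem round_general (hDual : DualSpec) (r : ℕ) (hPP : PP r) {δ K : ℝ} (hδ : 0 < δ)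
    (hK : 0 < K) : ∃ θ : ℝ, 0 < θ ∧ ∃ d0 : ℕ, ∀ d : ℕ, d0 ≤ d →
    ∀ N : ℕ → Finset ℕ, (∀ v, N v ⊆ range v) → ∀ n : ℕ, CF N (range n) r →
      (∀ v, v < n → (N v).card ≤ d) →
      ∃ EE : (Finset ℕ → ℝ) → ℝ, GoodOp N n EE ∧
        ∀ v, v < n → ∀ S ⊆ N v, δ * (d : ℝ) ≤ S.card →
          EE (fun I => Real.exp (-(θ * ((I ∩ S).card : ℝ)))) ≤ Real.exp (-(K * θ)) := by
  classical
  set s : ℝ := 4 * (K + 1) / δ with hs
  have hs0 : 0 < s := by positivity
  obtain ⟨m, hm1, hD⟩ := hDual r hPP s hs0
  have hm0 : 0 < m := by linarith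
  refine ⟨1 / m ^ 2, by positivity, ⌈m⌉₊, ?_⟩
  intro d hd N hN n hCF hdeg
  have hmd : m ≤ d := (Nat.le_ceil m).trans (by exact_mod_cast hd)
  have hd0 : (0 : ℝ) < d := lt_of_lt_of_le hm0 hmd
  set p : ℝ := m / (2 * d) with hp
  have hp0 : 0 ≤ p := by positivity
  have hp1 : p ≤ 1 := by
    rw [hp, div_le_one (by positivity)]
    linarith
  have hpd : d * p = m / 2 := by
    rw [hp]
    field_simp
  -- the distributions
  have hex : ∀ R : Finset ℕ, ∃ w : Finset ℕ → ℝ, R ⊆ range n →
      (∀ A, 0 ≤ w A) ∧ (∀ A, w A ≠ 0 → A ⊆ core N m R ∧ Indep N A) ∧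
      ∑ A ∈ (core N m R).powerset, w A = 1 ∧
      ∀ v ∈ core N m R, ∑ A ∈ (core N m R).powerset, w A * ind v A = s / m := by
    intro R
    by_cases hR : R ⊆ range n
    · obtain ⟨w, hw⟩ := hD N hN (core N m R)
        (hCF.mono ((Finset.filter_subset _ _).trans hR)) m le_rfl (by
          intro v hv
          rw [core, Finset.mem_filter] at hv
          refine le_trans ?_ hv.2
          exact_mod_cast Finset.card_le_card
            (Finset.inter_subset_inter_left (Finset.filter_subset _ _)))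
      exact ⟨w, fun _ => hw⟩
    · exact ⟨fun _ => 0, fun h => absurd h hR⟩
  choose w hw using hex
  let inner : (Finset ℕ → ℝ) → Finset ℕ → ℝ := fun F R =>
    ∑ A ∈ (core N m R).powerset, w R A * F A
  let EE : (Finset ℕ → ℝ) → ℝ := fun F => bex p n (inner F)
  have hbmono : ∀ G G' : Finset ℕ → ℝ, (∀ R, R ⊆ range n → G R ≤ G' R) →
      bex p n G ≤ bex p n G' := fun G G' h =>
    ex_mono_aux (fun _ _ => hp0) (fun _ _ => hp1) n G G' h
  have hgood : GoodOp N n EE := by
    refine ⟨?_, ?_, ?_, ?_⟩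
    · intro F F' h
      apply hbmono
      intro R hR
      apply Finset.sum_le_sum
      intro A _
      by_cases h0 : w R A = 0
      · rw [h0, zero_mul, zero_mul]
      · obtain ⟨h1, h2⟩ := (hw R hR).2.1 A h0
        exact mul_le_mul_of_nonneg_left
          (h A ((h1.trans (Finset.filter_subset _ _)).trans hR) h2) ((hw R hR).1 A)
    · intro F F'
      show bex p n (inner fun I => F I + F' I) = bex p n (inner F) + bex p n (inner F')
      unfold bex
      rw [← ex_add]
      congr 1
      funext R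
      simp only [inner, mul_add, Finset.sum_add_distrib]
    · intro c F
      show bex p n (inner fun I => c * F I) = c * bex p n (inner F)
      unfold bex
      rw [← ex_smul]
      congr 1
      funext R
      simp only [inner, Finset.mul_sum]
      exact Finset.sum_congr rfl fun _ _ => by ring
    · intro c
      show bex p n (inner fun _ => c) = c
      unfold bex
      rw [ex_congr n _ (fun _ => c), ex_const]
      intro R hR
      simp only [inner]
      rw [← Finset.sum_mul, (hw R hR).2.2.1, one_mul]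
  refine ⟨EE, hgood, ?_⟩
  intro v hv S hS hcard
  have hSn : ∀ u ∈ S, u < n := fun u hu => by
    have := Finset.mem_range.1 (hN v (hS hu))
    omega
  have hScard : (S.card : ℝ) ≤ d := by
    exact_mod_cast (Finset.card_le_card hS).trans (hdeg v hv)
  -- the marginals
  have hmarg : ∀ u ∈ S, s / (4 * (d : ℝ)) ≤ EE (ind u) := by
    intro u hu
    have hun := hSn u hu
    have h1 : bex p n (fun R => s / m * (ind u R - 1 / m * ∑ x ∈ N u, ind x R * ind u R)) ≤
        EE (ind u) := by
      apply hbmono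
      intro R hR
      by_cases huR : u ∈ R
      · have e1 : ind u R = 1 := by simp [ind, huR]
        have e2 : ∑ x ∈ N u, ind x R * ind u R = ((N u ∩ R).card : ℝ) := by
          rw [e1, Finset.inter_comm, card_eq_sum]
          simp
        by_cases hc : ((N u ∩ R).card : ℝ) ≤ m
        · have hcore : u ∈ core N m R := by
            rw [core, Finset.mem_filter]
            exact ⟨huR, hc⟩
          show _ ≤ ∑ A ∈ (core N m R).powerset, w R A * ind u A
          rw [(hw R hR).2.2.2 u hcore, e2, e1]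
          have : (0 : ℝ) ≤ 1 / m * ((N u ∩ R).card : ℝ) := by positivity
          have h10 : (0 : ℝ) ≤ s / m := by positivity
          nlinarith
        · push Not at hc
          have hnn : 0 ≤ ∑ A ∈ (core N m R).powerset, w R A * ind u A :=
            Finset.sum_nonneg fun A _ => mul_nonneg ((hw R hR).1 A) (ind_nonneg _ _)
          refine le_trans ?_ hnn
          rw [e2, e1]
          have h2 : 1 ≤ 1 / m * ((N u ∩ R).card : ℝ) := by
            rw [one_div, inv_mul_eq_div, one_le_div hm0]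
            exact hc.le
          have h10 : (0 : ℝ) ≤ s / m := by positivity
          nlinarith
      · have e1 : ind u R = 0 := by simp [ind, huR]
        have hnn : 0 ≤ ∑ A ∈ (core N m R).powerset, w R A * ind u A :=
          Finset.sum_nonneg fun A _ => mul_nonneg ((hw R hR).1 A) (ind_nonneg _ _)
        refine le_trans ?_ hnn
        rw [e1]
        simp
    refine le_trans ?_ h1
    have h2 : bex p n (fun R => s / m * (ind u R - 1 / m * ∑ x ∈ N u, ind x R * ind u R)) =
        s / m * (p - 1 / m * ((N u).card * p ^ 2)) := by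
      unfold bex
      rw [ex_smul, ex_sub, ex_smul, ex_sum]
      have e1 := bex_ind (p := p) hun
      unfold bex at e1
      rw [e1]
      have e2 : ∀ x ∈ N u, ex (fun _ _ => p) n (fun R => ind x R * ind u R) = p ^ 2 := by
        intro x hx
        have hxu := Finset.mem_range.1 (hN u hx)
        exact bex_ind_mul hun (by omega) (by omega)
      rw [Finset.sum_congr rfl e2, Finset.sum_const, nsmul_eq_mul]
    rw [h2]
    have h3 : ((N u).card : ℝ) ≤ d := by exact_mod_cast hdeg u hun
    have h4 : ((N u).card : ℝ) * p ^ 2 ≤ m / 2 * p := by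
      rw [← hpd]
      nlinarith [sq_nonneg p]
    have h5 : 1 / m * (((N u).card : ℝ) * p ^ 2) ≤ p / 2 := by
      calc 1 / m * (((N u).card : ℝ) * p ^ 2) ≤ 1 / m * (m / 2 * p) :=
            mul_le_mul_of_nonneg_left h4 (by positivity)
        _ = p / 2 := by field_simp
    calc s / (4 * (d : ℝ)) = s / m * (p / 2) := by
          rw [hp]
          field_simp
          try ring
      _ ≤ s / m * (p - 1 / m * (((N u).card : ℝ) * p ^ 2)) :=
          mul_le_mul_of_nonneg_left (by linarith) (by positivity)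
  -- sums
  have hEsum : ∀ F : ℕ → Finset ℕ → ℝ, EE (fun I => ∑ u ∈ S, F u I) = ∑ u ∈ S, EE (F u) := by
    intro F
    have : ∀ T : Finset ℕ, EE (fun I => ∑ u ∈ T, F u I) = ∑ u ∈ T, EE (F u) := by
      intro T
      induction T using Finset.induction_on with
      | empty => simpa using hgood.const 0
      | insert a T ha ih =>
        simp only [Finset.sum_insert ha]
        rw [hgood.add, ih]
    exact this S
  have hmean : K + 1 ≤ EE (fun I => ((I ∩ S).card : ℝ)) := by
    have e1 : (fun I : Finset ℕ => ((I ∩ S).card : ℝ)) = fun I => ∑ u ∈ S, ind u I := by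
      funext I
      exact card_eq_sum I S
    rw [e1, hEsum]
    calc K + 1 = (δ * d) * (s / (4 * d)) := by
          rw [hs]
          field_simp
      _ ≤ S.card * (s / (4 * d)) := mul_le_mul_of_nonneg_right hcard (by positivity)
      _ = ∑ _u ∈ S, s / (4 * (d : ℝ)) := by rw [Finset.sum_const, nsmul_eq_mul]
      _ ≤ ∑ u ∈ S, EE (ind u) := Finset.sum_le_sum hmarg
  have hsq : EE (fun I => ((I ∩ S).card : ℝ) ^ 2) ≤ m ^ 2 := by
    have h1 : EE (fun I => ((I ∩ S).card : ℝ) ^ 2) ≤
        bex p n (fun R => ((R ∩ S).card : ℝ) ^ 2) := by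
      apply hbmono
      intro R hR
      show ∑ A ∈ (core N m R).powerset, w R A * ((A ∩ S).card : ℝ) ^ 2 ≤ _
      calc ∑ A ∈ (core N m R).powerset, w R A * ((A ∩ S).card : ℝ) ^ 2
          ≤ ∑ A ∈ (core N m R).powerset, w R A * ((R ∩ S).card : ℝ) ^ 2 := by
            apply Finset.sum_le_sum
            intro A hA
            rw [Finset.mem_powerset] at hA
            apply mul_le_mul_of_nonneg_left _ ((hw R hR).1 A)
            have : ((A ∩ S).card : ℝ) ≤ (R ∩ S).card := by
              exact_mod_cast Finset.card_le_card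
                (Finset.inter_subset_inter_right (hA.trans (Finset.filter_subset _ _)))
            exact pow_le_pow_left₀ (Nat.cast_nonneg _) this 2
        _ = ((R ∩ S).card : ℝ) ^ 2 := by
            rw [← Finset.sum_mul, (hw R hR).2.2.1, one_mul]
    refine h1.trans ((bex_card_sq hp0 hSn).trans ?_)
    have h2 : (S.card : ℝ) * p ≤ m / 2 := by
      rw [← hpd]
      exact mul_le_mul_of_nonneg_right hScard hp0
    have h3 : 0 ≤ (S.card : ℝ) * p := by positivity
    nlinarith
  -- conclusion
  set θ : ℝ := 1 / m ^ 2 with hθ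
  have hθ0 : 0 < θ := by positivity
  have hθm : θ * m ^ 2 = 1 := by
    rw [hθ]
    field_simp
  have h1 : EE (fun I => Real.exp (-(θ * ((I ∩ S).card : ℝ)))) ≤
      EE (fun I => 1 + ((-θ) * ((I ∩ S).card : ℝ) + θ ^ 2 / 2 * ((I ∩ S).card : ℝ) ^ 2)) := by
    apply hgood.mono
    intro I _ _
    have h2 := exp_neg_le2 (t := θ * ((I ∩ S).card : ℝ)) (by positivity)
    refine h2.trans (le_of_eq ?_)
    ring
  have h2 : EE (fun I => 1 + ((-θ) * ((I ∩ S).card : ℝ) + θ ^ 2 / 2 * ((I ∩ S).card : ℝ) ^ 2)) =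
      1 + ((-θ) * EE (fun I => ((I ∩ S).card : ℝ)) +
        θ ^ 2 / 2 * EE (fun I => ((I ∩ S).card : ℝ) ^ 2)) := by
    rw [hgood.add (fun _ => 1), hgood.const, hgood.add, hgood.smul, hgood.smul]
  rw [h2] at h1
  refine h1.trans ?_
  have h3 : (-θ) * EE (fun I => ((I ∩ S).card : ℝ)) ≤ (-θ) * (K + 1) :=
    mul_le_mul_of_nonpos_left hmean (by linarith)
  have h4 : θ ^ 2 / 2 * EE (fun I => ((I ∩ S).card : ℝ) ^ 2) ≤ θ / 2 := by
    calc θ ^ 2 / 2 * EE (fun I => ((I ∩ S).card : ℝ) ^ 2) ≤ θ ^ 2 / 2 * m ^ 2 :=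
          mul_le_mul_of_nonneg_left hsq (by positivity)
      _ = θ / 2 * (θ * m ^ 2) := by ring
      _ = θ / 2 := by rw [hθm, mul_one]
  have h5 := Real.add_one_le_exp (-(K * θ))
  nlinarith

namespace Strong

/-- The colouring theorem for graphs, from the one for ordered graphs. -/
theorem colorable_of_ordered' {V : Type*} [Fintype V] (G : SimpleGraph V) {r d k : ℕ} (hr : 2 ≤ r)
    (hcl : G.CliqueFree r)
    (hdeg : ∀ s : Set V, s.Nonempty → ∃ v ∈ s, (G.neighborSet v ∩ s).ncard ≤ d)
    (hord : ∀ N : ℕ → Finset ℕ, (∀ v, N v ⊆ range v) → CF N (range (Fintype.card V)) r →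
      (∀ v, v < Fintype.card V → (N v).card ≤ d) →
      ∃ c : ℕ → ℕ, (∀ v, v < Fintype.card V → c v < k) ∧
        ∀ v, v < Fintype.card V → ∀ x ∈ N v, c x ≠ c v) :
    G.Colorable k := by
  classical
  obtain ⟨f, hf1, hf2, hf3⟩ := exists_order G hdeg (Fintype.card V) Set.univ
    (by rw [Set.ncard_univ, Nat.card_eq_fintype_card])
  have hinj : Function.Injective f := fun x y h => hf1 (Set.mem_univ x) (Set.mem_univ y) h
  have hlt : ∀ v, f v < Fintype.card V := fun v => hf2 v (Set.mem_univ v)
  set N : ℕ → Finset ℕ := fun i =>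
    (range i).filter (fun j => ∃ u v, f u = j ∧ f v = i ∧ G.Adj v u) with hNdef
  have hN : ∀ v, N v ⊆ range v := fun v => Finset.filter_subset _ _
  have hmem : ∀ u v, f u ∈ N (f v) ↔ f u < f v ∧ G.Adj v u := by
    intro u v
    simp only [hNdef, mem_filter, mem_range]
    constructor
    · rintro ⟨h1, u', v', hu, hv, h2⟩
      rw [hinj hu, hinj hv] at h2
      exact ⟨h1, h2⟩
    · rintro ⟨h1, h2⟩
      exact ⟨h1, u, v, rfl, rfl, h2⟩
  have hNimage : ∀ v, (N (f v) : Set ℕ) = f '' {u | G.Adj v u ∧ f u < f v} := by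
    intro v
    ext j
    simp only [Finset.mem_coe, Set.mem_image, Set.mem_ofPred_eq]
    constructor
    · intro hj
      have hj' := hj
      simp only [hNdef, mem_filter, mem_range] at hj'
      obtain ⟨_, u, v', hu, _, _⟩ := hj'
      subst hu
      exact ⟨u, ⟨((hmem u v).1 hj).2, ((hmem u v).1 hj).1⟩, rfl⟩
    · rintro ⟨u, ⟨h1, h2⟩, rfl⟩
      exact (hmem u v).2 ⟨h2, h1⟩
  have hSd : ∀ v, ({u | G.Adj v u ∧ f u < f v} : Set V).ncard ≤ d := by
    intro v
    refine le_trans (le_of_eq ?_) (hf3 v (Set.mem_univ v))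
    congr 1
    ext u
    simp [SimpleGraph.mem_neighborSet]
  have hNempty : ∀ i, (¬ ∃ v, f v = i) → N i = ∅ := by
    intro i hi
    simp only [hNdef]
    apply Finset.filter_eq_empty_iff.2
    rintro j _ ⟨u, v, _, hv, _⟩
    exact hi ⟨v, hv⟩
  have hcard : ∀ i, (N i).card ≤ d := by
    intro i
    by_cases hi : ∃ v, f v = i
    · obtain ⟨v, rfl⟩ := hi
      rw [← Set.ncard_coe_finset, hNimage, Set.ncard_image_of_injective _ hinj]
      exact hSd v
    · rw [hNempty i hi]
      simp
  have hCF : CF N (range (Fintype.card V)) r := by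
    intro S hS hSr
    by_contra hcon
    push Not at hcon
    -- every element of `S` is the index of a vertex
    have himg : ∀ i ∈ S, ∃ v, f v = i := by
      intro i hi
      obtain ⟨j, hj, hij⟩ : ∃ j ∈ S, j ≠ i := by
        by_contra hno
        push Not at hno
        have : S ⊆ {i} := fun j hj => by
          rw [mem_singleton]
          exact hno j hj
        have := Finset.card_le_card this
        rw [card_singleton] at this
        omega
      rcases lt_or_gt_of_ne hij with h | h
      · have h1 := hcon j hj i hi h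
        simp only [hNdef, mem_filter] at h1
        obtain ⟨_, u, v, _, hv, _⟩ := h1
        exact ⟨v, hv⟩
      · have h1 := hcon i hi j hj h
        simp only [hNdef, mem_filter] at h1
        obtain ⟨_, u, v, hu, _, _⟩ := h1
        exact ⟨u, hu⟩
    apply hcl (univ.filter fun v => f v ∈ S)
    rw [SimpleGraph.isNClique_iff]
    constructor
    · intro u hu v hv huv
      simp only [Finset.coe_filter, mem_univ, true_and, Set.mem_ofPred_eq] at hu hv
      rcases lt_or_gt_of_ne (fun h => huv (hinj h)) with h | h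
      · exact ((hmem u v).1 (hcon _ hu _ hv h)).2.symm
      · exact ((hmem v u).1 (hcon _ hv _ hu h)).2
    · rw [← hSr, ← Finset.card_image_of_injective _ hinj]
      congr 1
      ext i
      simp only [mem_image, mem_filter, mem_univ, true_and]
      constructor
      · rintro ⟨v, hv, rfl⟩
        exact hv
      · intro hi
        obtain ⟨v, rfl⟩ := himg i hi
        exact ⟨v, hi, rfl⟩
  obtain ⟨c, hc1, hc2⟩ := hord N hN hCF (fun i _ => hcard i)
  refine ⟨SimpleGraph.Coloring.mk (fun v => (⟨c (f v), hc1 _ (hlt v)⟩ : Fin k)) ?_⟩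
  intro v w hvw he
  rw [Fin.mk.injEq] at he
  rcases lt_trichotomy (f v) (f w) with h | h | h
  · exact hc2 (f w) (hlt w) (f v) ((hmem v w).2 ⟨h, hvw.symm⟩) he
  · exact hvw.ne (hinj h)
  · exact hc2 (f v) (hlt v) (f w) ((hmem w v).2 ⟨h, hvw⟩) he.symm


end Strong

open Colour in
/-- Iteration of the rounds and greedy completion with `t + a` colours. -/
theorem colour_general {θ K : ℝ} (hθ : 0 < θ) {d t a : ℕ} (had : a ≤ d)
    (hKt : 2 * (d : ℝ) ≤ K * t) {N : ℕ → Finset ℕ} (hN : ∀ v, N v ⊆ range v) {n : ℕ}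
    (hcard : ∀ v, v < n → (N v).card ≤ d) {EE : (Finset ℕ → ℝ) → ℝ} (hE : GoodOp N n EE)
    (hS : ∀ v, v < n → ∀ S ⊆ N v, a ≤ S.card →
      EE (fun I => Real.exp (-(θ * ((I ∩ S).card : ℝ)))) ≤ Real.exp (-(K * θ)))
    (hn : (n : ℝ) < Real.exp (θ * d)) :
    ∃ c : ℕ → ℕ, (∀ v, v < n → c v < t + a) ∧ ∀ v, v < n → ∀ x ∈ N v, c x ≠ c v := by
  obtain ⟨J, hJ, hJle⟩ := exists_itE_le hE (fun T => ∑ v ∈ range n, cost N a v T) t ∅
  rw [itE_sum hE] at hJle
  have hda : d - (d - a) = a := by omega
  have hbound : ∀ v ∈ range n, itE EE (cost N a v) t ∅ ≤ Real.exp (-(θ * d)) := by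
    intro v hv
    rw [mem_range] at hv
    have h1 := itE_cost_le hE (d := d) (m := d - a) (v := v)
      (lam := θ) (c := K * θ) hθ.le (by omega) (hcard v hv) ?_ t ∅
    · rw [hda] at h1
      refine h1.trans ?_
      rw [Finset.empty_inter, Finset.card_empty, Nat.cast_zero, sub_zero, ← Real.exp_add]
      apply Real.exp_le_exp.2
      have h2 : (((d - a : ℕ) : ℝ)) ≤ d := by exact_mod_cast Nat.sub_le d a
      nlinarith
    · intro S hSN hS'
      rw [hda] at hS'
      exact hS v hv S hSN hS'
  have htot : ∑ v ∈ range n, itE EE (cost N a v) t ∅ < 1 := by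
    refine lt_of_le_of_lt (Finset.sum_le_sum hbound) ?_
    rw [Finset.sum_const, card_range, nsmul_eq_mul, Real.exp_neg, ← div_eq_mul_inv,
      div_lt_one (Real.exp_pos _)]
    exact hn
  rw [Finset.empty_union] at hJle
  have hlt := lt_of_le_of_lt hJle htot
  have hgood : ∀ v, v < n → (N v \ (range t).biUnion J).card < a := by
    intro v hv
    by_contra hcon
    push Not at hcon
    have h1 : cost N a v ((range t).biUnion J) = 1 := by
      unfold cost
      rw [if_pos hcon]
    have h2 : cost N a v ((range t).biUnion J) ≤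
        ∑ v ∈ range n, cost N a v ((range t).biUnion J) := by
      apply Finset.single_le_sum (f := fun v => cost N a v ((range t).biUnion J))
      · intro w _
        unfold cost
        split_ifs <;> norm_num
      · exact mem_range.2 hv
    linarith
  exact exists_colouring hN J hJ hgood

/-- The strong form of the theorem, from the modules: few vertices force few colours. -/
theorem strong_of (hPP : PPSpec) (hDual : DualSpec) :
    ∀ r : ℕ, 2 ≤ r → ∀ ε : ℝ, 0 < ε → ∃ c : ℝ, 0 < c ∧ ∃ d₀ : ℕ, ∀ d : ℕ, d₀ ≤ d →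
      ∀ (V : Type) [Fintype V] (G : SimpleGraph V),
        G.CliqueFree r →
        (∀ s : Set V, s.Nonempty → ∃ v ∈ s, (G.neighborSet v ∩ s).ncard ≤ d) →
        (Fintype.card V : ℝ) < Real.exp (c * (d : ℝ)) →
        ∀ k : ℕ, ε * d ≤ k → G.Colorable k := by
  intro r hr ε hε
  set δ : ℝ := min (ε / 4) (1 / 4) with hδdef
  have hδ : 0 < δ := by positivity
  have hδε : δ ≤ ε / 4 := min_le_left _ _
  have hδ1 : δ ≤ 1 / 4 := min_le_right _ _
  obtain ⟨θ, hθ, d0, hround⟩ := round_general hDual r (hPP r hr) (δ := δ) (K := 4 / δ) hδ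
    (by positivity)
  refine ⟨θ, hθ, max d0 ⌈2 / δ⌉₊, fun d hd V _ G hcl hdeg hlt k hk => ?_⟩
  have hd0 : d0 ≤ d := le_trans (le_max_left _ _) hd
  have hd1 : 2 / δ ≤ d := (Nat.le_ceil _).trans (by exact_mod_cast le_trans (le_max_right _ _) hd)
  have hd2 : 2 ≤ δ * d := by
    rw [div_le_iff₀ hδ] at hd1
    linarith
  -- number of rounds and of extra colours
  obtain ⟨t, ht⟩ : ∃ t : ℕ, t = ⌊δ * d⌋₊ := ⟨_, rfl⟩
  obtain ⟨a, ha⟩ : ∃ a : ℕ, a = ⌈δ * d⌉₊ := ⟨_, rfl⟩
  have ht1 : (t : ℝ) ≤ δ * d := by rw [ht]; exact Nat.floor_le (by linarith)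
  have ht2 : δ * d - 1 < t := by rw [ht]; exact Nat.sub_one_lt_floor _
  have ha1 : δ * d ≤ a := by rw [ha]; exact Nat.le_ceil _
  have ha2 : (a : ℝ) < δ * d + 1 := by rw [ha]; exact Nat.ceil_lt_add_one (by linarith)
  have hdnn : (0 : ℝ) ≤ d := Nat.cast_nonneg d
  have had : a ≤ d := by
    have h1 : (a : ℝ) < d := by nlinarith
    exact_mod_cast h1.le
  have hKt : 2 * (d : ℝ) ≤ 4 / δ * t := by
    rw [div_mul_eq_mul_div, le_div_iff₀ hδ]
    nlinarith
  have htak : t + a ≤ k := by
    have h1 : ((t + a : ℕ) : ℝ) ≤ k := by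
      push_cast
      nlinarith
    exact_mod_cast h1
  refine SimpleGraph.Colorable.mono htak
    (Strong.colorable_of_ordered' G hr hcl hdeg fun N hN hCF hcard => ?_)
  obtain ⟨EE, hE, hlap⟩ := hround d hd0 N hN _ hCF hcard
  refine colour_general hθ had hKt hN hcard hE (fun v hv S hS haS => hlap v hv S hS ?_) hlt
  have h1 : (a : ℝ) ≤ S.card := by exact_mod_cast haS
  linarith

end Pool.Agent.MP4146e4
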